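import Pool.Agent.H16.Cube.Prob

/-!
# The block structure of the cube
-/

open Finset

set_option linter.unusedSectionVars false

namespace Pool.Agent.H16.Cube

variable {n l : ℕ}

/-- Parity. -/
def par (x : Fin n → ZMod 2) : ZMod 2 := ∑ i, x i

/-- The code: constant on the groups `{4k, ..., 4k+3}`, `k < l`. -/
def cc (n : ℕ) (r : Fin l → ZMod 2) : Fin n → ZMod 2 :=
  fun i => if h : i.1 / 4 < l then r ⟨i.1 / 4, h⟩ else 0

theorem cc_add (r s : Fin l → ZMod 2) : cc n (r + s) = cc n r + cc n s := by
  funext i
  simp only [cc, Pi.add_apply]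
  split_ifs <;> simp

theorem zmod2_add_self (a : ZMod 2) : a + a = 0 := by
  revert a; decide

theorem fun_add_self {k : ℕ} (x : Fin k → ZMod 2) : x + x = 0 := by
  funext i; exact zmod2_add_self (x i)

theorem zmod2_ne_zero {a : ZMod 2} (h : a ≠ 0) : a = 1 := by
  revert a; decide

theorem par_add (x y : Fin n → ZMod 2) : par (x + y) = par x + par y := by
  simp [par, sum_add_distrib]

theorem par_single (i : Fin n) : par (Pi.single i (1 : ZMod 2)) = 1 := by
  simp [par]

theorem par_cc (hl : 4 * l ≤ n) (r : Fin l → ZMod 2) : par (cc n r) = 0 := by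
  classical
  unfold par
  -- the partner of `i`
  let p : Fin n → Fin n := fun i => if h : i.1 / 4 < l then
    (if h2 : i.1 % 2 = 0 then ⟨i.1 + 1, by omega⟩ else ⟨i.1 - 1, by omega⟩) else i
  have hp : ∀ i : Fin n, (p i).1 / 4 = i.1 / 4 := by
    intro i
    simp only [p]
    split_ifs <;> simp only <;> omega
  refine sum_involution (fun i _ => p i) ?_ ?_ (fun _ _ => mem_univ _) ?_
  · intro i _
    have h1 : cc n r (p i) = cc n r i := by
      simp only [cc, hp i]
    rw [h1]
    exact zmod2_add_self _
  · intro i _ hi
    have hil : i.1 / 4 < l := by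
      by_contra h
      apply hi
      simp [cc, h]
    intro h
    have h2 := congrArg Fin.val h
    simp only [p, hil, dite_true] at h2
    split_ifs at h2 with h3
    · simp only at h2; omega
    · simp only at h2; omega
  · intro i _
    apply Fin.ext
    simp only [p]
    by_cases hil : i.1 / 4 < l
    · simp only [hil, dite_true]
      by_cases h2 : i.1 % 2 = 0
      · simp only [h2, dite_true]
        have h3 : (i.1 + 1) / 4 < l := by omega
        have h4 : ¬ (i.1 + 1) % 2 = 0 := by omega
        simp only [h3, dite_true, h4, dite_false]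
        omega
      · simp only [h2, dite_false]
        have h3 : (i.1 - 1) / 4 < l := by omega
        have h4 : (i.1 - 1) % 2 = 0 := by omega
        simp only [h3, dite_true, h4]
        omega
    · simp only [hil, dite_false]

/-- The block system of the cube. -/
def cubeBC (n l : ℕ) (hl : 4 * l ≤ n) : BC (Fin n → ZMod 2) (Fin l → ZMod 2) n where
  O := univ.filter (fun x => par x = 1)
  nbr i x := x + Pi.single i 1
  nbr_inv i x := by
    rw [add_assoc, fun_add_self, add_zero]
  nbr_O i x := by
    simp only [mem_filter, mem_univ, true_and, par_add, par_single]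
    generalize par x = a
    revert a; decide
  sh r x := x + cc n r
  sh_inj r := add_left_injective _
  sh_O r x := by
    simp only [mem_filter, mem_univ, true_and, par_add, par_cc hl, add_zero]
  pr x := x + cc n (fun k : Fin l => x ⟨4 * k.1, by have := k.2; omega⟩)
  pr_sh r x := by
    have h1 : (fun k : Fin l => (x + cc n r) ⟨4 * k.1, by have := k.2; omega⟩) =
        (fun k : Fin l => x ⟨4 * k.1, by have := k.2; omega⟩) + r := by
      funext k
      simp only [Pi.add_apply, cc]
      have h2 : 4 * k.1 / 4 < l := by have := k.2; omega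
      rw [dif_pos h2]
      congr 2
      apply Fin.ext
      simp only
      omega
    rw [h1, cc_add]
    calc x + cc n r + (cc n (fun k : Fin l => x ⟨4 * k.1, by have := k.2; omega⟩) + cc n r)
        = x + cc n (fun k : Fin l => x ⟨4 * k.1, by have := k.2; omega⟩) +
          (cc n r + cc n r) := by abel
      _ = _ := by rw [fun_add_self, add_zero]
  pr_eq x x' h := by
    refine ⟨(fun k : Fin l => x ⟨4 * k.1, by have := k.2; omega⟩) +
      (fun k : Fin l => x' ⟨4 * k.1, by have := k.2; omega⟩), ?_⟩
    rw [cc_add, ← add_assoc, h, add_assoc, fun_add_self, add_zero]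
  pr_nbr x i j hij := by
    intro h
    -- `e_i + e_j` would be a code word
    set u : Fin l → ZMod 2 := fun k =>
      (x + Pi.single i 1 : Fin n → ZMod 2) ⟨4 * k.1, by have := k.2; omega⟩ with hu
    set w : Fin l → ZMod 2 := fun k =>
      (x + Pi.single j 1 : Fin n → ZMod 2) ⟨4 * k.1, by have := k.2; omega⟩ with hw
    have h1 : cc n (u + w) = Pi.single i 1 + Pi.single j 1 := by
      rw [cc_add]
      have h2 : (x + Pi.single i 1 + cc n u) + (x + Pi.single j 1 + cc n w) = 0 := by
        rw [h, fun_add_self]
      have h3 : (x + Pi.single i 1 + cc n u) + (x + Pi.single j 1 + cc n w) =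
          (x + x) + ((cc n u + cc n w) + (Pi.single i 1 + Pi.single j 1)) := by abel
      rw [h3, fun_add_self, zero_add] at h2
      have h4 : ∀ A B : Fin n → ZMod 2, A + B = 0 → A = B := by
        intro A B hAB
        calc A = A + (B + B) := by rw [fun_add_self B, add_zero]
          _ = (A + B) + B := by rw [add_assoc]
          _ = B := by rw [hAB, zero_add]
      exact h4 _ _ h2
    have hval : ∀ m : Fin n, cc n (u + w) m =
        (if m = i then (1 : ZMod 2) else 0) + (if m = j then 1 else 0) := by
      intro m
      rw [h1]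
      simp [Pi.single_apply]
    have hi := hval i
    rw [if_pos rfl, if_neg hij, add_zero] at hi
    have hil : i.1 / 4 < l := by
      by_contra hcon
      simp [cc, hcon] at hi
    have hgroup : ∀ m : Fin n, m.1 / 4 = i.1 / 4 → cc n (u + w) m = 1 := by
      intro m hm
      rw [← hi]
      simp only [cc, hm]
    obtain ⟨m, hm, hmi, hmj⟩ : ∃ m : Fin n, m.1 / 4 = i.1 / 4 ∧ m ≠ i ∧ m ≠ j := by
      have hb : 4 * (i.1 / 4) + 2 < n := by omega
      by_cases h0 : (4 * (i.1 / 4)) ≠ i.1 ∧ (4 * (i.1 / 4)) ≠ j.1
      · exact ⟨⟨4 * (i.1 / 4), by omega⟩, by simp only; omega,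
          fun h => h0.1 (congrArg Fin.val h), fun h => h0.2 (congrArg Fin.val h)⟩
      by_cases h1 : (4 * (i.1 / 4) + 1) ≠ i.1 ∧ (4 * (i.1 / 4) + 1) ≠ j.1
      · exact ⟨⟨4 * (i.1 / 4) + 1, by omega⟩, by simp only; omega,
          fun h => h1.1 (congrArg Fin.val h), fun h => h1.2 (congrArg Fin.val h)⟩
      · refine ⟨⟨4 * (i.1 / 4) + 2, hb⟩, by simp only; omega, ?_, ?_⟩
        · intro h
          have := congrArg Fin.val h
          simp only at this
          omega
        · intro h
          have := congrArg Fin.val h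
          simp only at this
          omega
    have h5 := hgroup m hm
    rw [hval m, if_neg hmi, if_neg hmj] at h5
    simp at h5

theorem card_O (n l : ℕ) (hl : 4 * l ≤ n) (hn : 1 ≤ n) :
    2 * (cubeBC n l hl).O.card = 2 ^ n := by
  classical
  let i : Fin n := ⟨0, hn⟩
  have h1 : (cubeBC n l hl).O.card = ((cubeBC n l hl).O)ᶜ.card := by
    refine card_bij' (fun x _ => (cubeBC n l hl).nbr i x) (fun x _ => (cubeBC n l hl).nbr i x)
      ?_ ?_ ?_ ?_
    · intro x hx
      exact mem_compl.mpr (((cubeBC n l hl).nbr_O i x).mp hx)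
    · intro x hx
      by_contra h
      exact (mem_compl.mp hx) (((cubeBC n l hl).nbr_O i x).mpr h)
    · intro x _; exact (cubeBC n l hl).nbr_inv i x
    · intro x _; exact (cubeBC n l hl).nbr_inv i x
  have h2 := card_add_card_compl (cubeBC n l hl).O
  have h3 : Fintype.card (Fin n → ZMod 2) = 2 ^ n := by
    rw [Fintype.card_fun, ZMod.card, Fintype.card_fin]
  rw [h3] at h2
  omega

end Pool.Agent.H16.Cube
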