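import Pool.Agent.H16.Cube.Big

/-!
# Minimum degree forcing a spanning hypercube
-/

open Finset

set_option linter.unusedSectionVars false

namespace Pool.Agent.H16.Cube

theorem big (n : ℕ) (hn : 5 ^ 16 ≤ n) (G : SimpleGraph (Fin (2 ^ n))) [DecidableRel G.Adj]
    (hG : ∀ v, (1 - 1 / 192 * Real.log n / n) * (2 : ℝ) ^ n < (G.degree v : ℝ)) :
    ∃ F : (Fin n → ZMod 2) → Fin (2 ^ n), Function.Injective F ∧
      ∀ x i, G.Adj (F x) (F (x + Pi.single i 1)) := by
  classical
  obtain ⟨u, hu5, hu, -, hlogu, hlog1⟩ := exists_u n hn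
  obtain ⟨l, hl4, hl1, hl2⟩ := exists_l n hn
  have hupos : 0 < u := by linarith
  have hnpos : (0 : ℝ) < n := by rw [← hu]; positivity
  have hn1 : 1 ≤ n := le_trans (by norm_num) hn
  have hnbig : ((5 : ℝ) ^ 16) ≤ n := by exact_mod_cast hn
  set N : ℝ := (2 : ℝ) ^ n with hN
  have hNpos : 0 < N := by rw [hN]; positivity
  set c : ℝ := 1 / 192 * Real.log n / n with hc
  have hc0 : 0 < c := by rw [hc]; positivity
  have hcu : c ≤ 1 / (12 * u ^ 15) := by
    rw [hc, ← hu, div_le_div_iff₀ (by positivity) (by positivity)]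
    calc 1 / 192 * Real.log (u ^ 16) * (12 * u ^ 15) ≤ 1 / 192 * (16 * u) * (12 * u ^ 15) := by
          apply mul_le_mul_of_nonneg_right _ (by positivity)
          apply mul_le_mul_of_nonneg_left _ (by norm_num)
          rw [hu]; exact hlogu
      _ = 1 * u ^ 16 := by ring
  have hcN : c < 1 / 12 := by
    refine lt_of_le_of_lt hcu ?_
    apply div_lt_div_of_pos_left (by norm_num) (by norm_num)
    have : 1 < u ^ 15 := one_lt_pow₀ (by linarith) (by norm_num)
    linarith
  set L : ℝ := (2 : ℝ) ^ l with hL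
  have hL1 : (n : ℝ) ^ 3 ≤ L := by rw [hL]; exact_mod_cast hl1
  have hL2 : L ≤ 2 * (n : ℝ) ^ 3 := by rw [hL]; exact_mod_cast hl2
  have hLpos : 0 < L := by rw [hL]; positivity
  have hcardQ : Fintype.card (Fin n → ZMod 2) = 2 ^ n := by
    rw [Fintype.card_fun, ZMod.card, Fintype.card_fin]
  have hcardR : Fintype.card (Fin l → ZMod 2) = 2 ^ l := by
    rw [Fintype.card_fun, ZMod.card, Fintype.card_fin]
  have hcardQ' : (Fintype.card (Fin n → ZMod 2) : ℝ) = N := by rw [hcardQ, hN]; push_cast; rfl
  have hcardR' : (Fintype.card (Fin l → ZMod 2) : ℝ) = L := by rw [hcardR, hL]; push_cast; rfl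
  -- the complement
  let H : Fin (2 ^ n) → Finset (Fin (2 ^ n)) := fun v => univ.filter (fun w => v ≠ w ∧ ¬ G.Adj v w)
  have hH : ∀ v, ((H v).card : ℝ) ≤ c * N := by
    intro v
    have h1 : (H v).card + G.degree v ≤ 2 ^ n := by
      have h2 : Disjoint (H v) (G.neighborFinset v) := by
        rw [disjoint_left]
        intro w hw hw'
        exact (mem_filter.mp hw).2.2 ((G.mem_neighborFinset v w).mp hw')
      have h3 := card_le_univ (H v ∪ G.neighborFinset v)
      rw [card_union_of_disjoint h2, G.card_neighborFinset_eq_degree, Fintype.card_fin] at h3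
      exact h3
    have h1' : ((H v).card : ℝ) + G.degree v ≤ N := by rw [hN]; exact_mod_cast h1
    have := hG v
    nlinarith
  -- the random bijection
  set K := cubeBC n l hl4 with hK
  set t : ℕ := ⌈6 * c * L⌉₊ with ht
  have h6cL : 2 * (n : ℝ) + 1 ≤ 6 * c * L := by
    have h1 : 6 * c * L ≥ 6 * c * n ^ 3 := mul_le_mul_of_nonneg_left hL1 (by positivity)
    have h2 : 6 * c * (n : ℝ) ^ 3 = Real.log n * n ^ 2 / 32 := by
      rw [hc]; field_simp; ring
    have h3 : Real.log n * (n : ℝ) ^ 2 / 32 ≥ 1 * (n : ℝ) ^ 2 / 32 := by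
      apply div_le_div_of_nonneg_right _ (by norm_num)
      exact mul_le_mul_of_nonneg_right hlog1 (by positivity)
    nlinarith
  have ht1 : 6 * c * L ≤ t := Nat.le_ceil _
  have ht2 : (t : ℝ) < 6 * c * L + 1 := Nat.ceil_lt_add_one (by positivity)
  have htn : 2 * n + 1 ≤ t := by
    have : ((2 * n + 1 : ℕ) : ℝ) ≤ t := by push_cast; linarith
    exact_mod_cast this
  obtain ⟨ψ, hψ⟩ := exists_bij (Q := Fin n → ZMod 2) (V := Fin (2 ^ n))
    (by rw [hcardQ, Fintype.card_fin]) (by rw [hcardQ]; positivity)
    (J := Fin (2 ^ n) × (Fin n → ZMod 2))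
    (fun j => univ.image (fun r => K.sh r j.2)) (fun j => H j.1) (2 ^ l) t c hc0.le
    (by omega)
    (fun j => card_image_le.trans (by rw [card_univ, hcardR]))
    (fun j => by rw [hcardQ']; exact hH j.1)
    (by
      have htpos : (0 : ℝ) < t := by
        have : 0 < t := by omega
        exact_mod_cast this
      have h1 : ((2 ^ l : ℕ) : ℝ) * c * Real.exp 1 / t ≤ 1 / 2 := by
        rw [div_le_iff₀ htpos]
        have h2 : ((2 ^ l : ℕ) : ℝ) = L := by rw [hL]; push_cast; rfl
        rw [h2]
        have h3 := Real.exp_one_lt_d9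
        have h4 : L * c * Real.exp 1 ≤ L * c * 3 :=
          mul_le_mul_of_nonneg_left (by linarith) (by positivity)
        linarith
      have h2 : (((2 ^ l : ℕ) : ℝ) * c * Real.exp 1 / t) ^ t ≤ (1 / 2) ^ (2 * n + 1) := by
        calc _ ≤ (1 / 2 : ℝ) ^ t := pow_le_pow_left₀ (by positivity) h1 t
          _ ≤ _ := pow_le_pow_of_le_one (by norm_num) (by norm_num) htn
      rw [Fintype.card_prod, Fintype.card_fin, hcardQ]
      push_cast
      have h3 : (2 : ℝ) ^ n * 2 ^ n * (1 / 2) ^ (2 * n + 1) < 1 := by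
        have h4 : (2 : ℝ) ^ n * 2 ^ n * (1 / 2) ^ (2 * n + 1) = 1 / 2 := by
          rw [← pow_add, ← two_mul, pow_succ, ← mul_assoc, ← mul_pow]
          norm_num
        rw [h4]; norm_num
      refine lt_of_le_of_lt ?_ h3
      apply mul_le_mul_of_nonneg_left _ (by positivity)
      have h5 := h2
      push_cast at h5
      exact h5)
  -- the forbidden graph on the cube
  let adj : (Fin n → ZMod 2) → (Fin n → ZMod 2) → Prop := fun x z => ψ z ∈ H (ψ x)
  have hNb : ∀ x z, z ∈ BC.Nb adj x ↔ ψ z ∈ H (ψ x) := by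
    intro x z
    simp [BC.Nb, adj]
  have hsymm : ∀ x z, adj x z → adj z x := by
    intro x z h
    have h1 := (mem_filter.mp h).2
    exact mem_filter.mpr ⟨mem_univ _, h1.1.symm, fun h2 => h1.2 h2.symm⟩
  have hΔ : ∀ x, ((BC.Nb adj x).card : ℝ) ≤ c * N := by
    intro x
    refine le_trans ?_ (hH (ψ x))
    have h1 : (BC.Nb adj x).card ≤ (H (ψ x)).card := by
      apply card_le_card_of_injOn ψ
      · intro z hz
        exact (hNb x z).mp hz
      · exact ψ.injective.injOn
    exact_mod_cast h1
  have hrep : ∀ v x, ((univ.filter (fun r => K.sh r x ∈ BC.Nb adj v)).card : ℝ) ≤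
      6 * c * Fintype.card (Fin l → ZMod 2) := by
    intro v x
    rw [hcardR']
    have h1 := hψ (ψ v, x)
    have h2 : (univ.filter (fun r => K.sh r x ∈ BC.Nb adj v)).card ≤
        ((univ.image (fun r => K.sh r x)).filter (fun a => ψ a ∈ H (ψ v))).card := by
      apply card_le_card_of_injOn (fun r => K.sh r x)
      · intro r hr
        refine mem_filter.mpr ⟨mem_image_of_mem _ (mem_univ _), ?_⟩
        exact (hNb _ _).mp (mem_filter.mp hr).2
      · intro r _ r' _ hrr
        have h3 : x + cc n r = x + cc n r' := hrr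
        exact cc_inj hl4 (add_left_cancel h3)
    have h3 : (univ.filter (fun r => K.sh r x ∈ BC.Nb adj v)).card + 1 ≤ t := by
      have := lt_of_le_of_lt h2 h1
      omega
    have h4 : ((univ.filter (fun r => K.sh r x ∈ BC.Nb adj v)).card : ℝ) + 1 ≤ t := by
      exact_mod_cast h3
    linarith
  have hO : (K.O.card : ℝ) = N / 2 := by
    have h1 := card_O n l hl4 hn1
    have h2 : 2 * (K.O.card : ℝ) = N := by rw [hN]; exact_mod_cast h1
    linarith
  have ha : u⁻¹ ≤ (1 - 6 * c) ^ n := by
    have h1 := one_sub_ge (show 0 ≤ 6 * c by positivity) (by linarith)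
    have h2 : (Real.exp (-(2 * (6 * c)))) ^ n = u⁻¹ := by
      rw [← Real.exp_nat_mul]
      have h3 : (n : ℝ) * -(2 * (6 * c)) = -(Real.log n / 16) := by
        rw [hc]; field_simp; ring
      rw [h3, Real.exp_neg]
      congr 1
      have h4 : Real.log n = 16 * Real.log u := by
        rw [← hu, Real.log_pow]; push_cast; ring
      rw [h4]
      have h5 : 16 * Real.log u / 16 = Real.log u := by ring
      rw [h5, Real.exp_log hupos]
    rw [← h2]
    exact pow_le_pow_left₀ (Real.exp_pos _).le h1 n
  obtain ⟨k, E, hk, hE, num1, num2, num3, num4⟩ := params n hn u N L c (N / 2) hu5 hu hN hL2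
    (by
      have : (1 : ℝ) ≤ (n : ℝ) ^ 3 := one_le_pow₀ (by exact_mod_cast hn1)
      linarith) hc0 hcu rfl
  obtain ⟨F, hFinj, hF⟩ := K.embed adj (c * N) (6 * c) u⁻¹ hsymm hΔ (by positivity)
    (by linarith) hrep ha (by positivity) hn1 (by positivity) k hk E hE _ _ rfl rfl
    (by rw [hO]; exact num1)
    (by
      push_cast
      rw [hO, hcardR']
      exact num2)
    (by
      push_cast
      rw [hO, hcardR', hcardQ', hcardQ]
      exact num3)
    (by rw [hO]; exact num4)
  refine ⟨fun x => ψ (F x), ψ.injective.comp hFinj, ?_⟩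
  intro x i
  have h1 := hF x i
  have h2 : K.nbr i x = x + Pi.single i 1 := rfl
  rw [h2] at h1
  by_contra hcon
  apply h1
  refine mem_filter.mpr ⟨mem_univ _, ?_, hcon⟩
  intro h3
  have h4 := hFinj (ψ.injective h3)
  have h5 := congrFun h4 i
  simp only [Pi.add_apply, Pi.single_eq_same] at h5
  have h6 : (x i : ZMod 2) ≠ x i + 1 := by
    generalize x i = a
    revert a; decide
  exact h6 h5

/-- Translation to Boolean vectors. -/
theorem toBool {n : ℕ} {V : Type} (G : SimpleGraph V)
    (h : ∃ F : (Fin n → ZMod 2) → V, Function.Injective F ∧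
      ∀ x i, G.Adj (F x) (F (x + Pi.single i 1))) :
    ∃ f : (Fin n → Bool) ↪ V, ∀ x y, hammingDist x y = 1 → G.Adj (f x) (f y) := by
  classical
  obtain ⟨F, hFinj, hF⟩ := h
  let e : (Fin n → Bool) → (Fin n → ZMod 2) := fun x i => if x i then 1 else 0
  have he : Function.Injective e := by
    intro x y hxy
    funext i
    have := congrFun hxy i
    simp only [e] at this
    revert this
    cases x i <;> cases y i <;> simp
  refine ⟨⟨fun x => F (e x), hFinj.comp he⟩, ?_⟩
  intro x y hxy
  unfold hammingDist at hxy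
  obtain ⟨i, hi⟩ := card_eq_one.mp hxy
  have h1 : ∀ j, x j ≠ y j ↔ j = i := by
    intro j
    have : j ∈ univ.filter (fun j => x j ≠ y j) ↔ j ∈ ({i} : Finset (Fin n)) := by rw [hi]
    simpa using this
  have h2 : e y = e x + Pi.single i 1 := by
    funext j
    by_cases hj : j = i
    · subst hj
      have h3 := (h1 j).mpr rfl
      simp only [e, Pi.add_apply, Pi.single_eq_same]
      revert h3
      cases x j <;> cases y j <;> simp <;> decide
    · have h3 : x j = y j := by
        by_contra h4
        exact hj ((h1 j).mp h4)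
      simp only [e, Pi.add_apply, Pi.single_eq_of_ne hj, add_zero, h3]
  change G.Adj (F (e x)) (F (e y))
  rw [h2]
  exact hF _ _

theorem final : ∃ γ : ℝ, 0 < γ ∧ ∀ n : ℕ, ∀ G : SimpleGraph (Fin (2 ^ n)),
    ∀ [DecidableRel G.Adj],
      (∀ v : Fin (2 ^ n), ((G.degree v : ℕ) : ℝ) > (1 - γ * Real.log n / n) * (2 : ℝ) ^ n) →
      ∃ f : (Fin n → Bool) ↪ Fin (2 ^ n),
        ∀ x y : Fin n → Bool, hammingDist x y = 1 → G.Adj (f x) (f y) := by
  classical
  set n₀ : ℕ := 5 ^ 16 with hn₀
  set γ : ℝ := min (1 / 192) (1 / (2 ^ (2 * n₀))) with hγ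
  have hγ0 : 0 < γ := by
    rw [hγ]
    exact lt_min (by norm_num) (by positivity)
  refine ⟨γ, hγ0, ?_⟩
  intro n G _ hG
  by_cases hn : n₀ ≤ n
  · apply toBool
    apply big n hn G
    intro v
    refine lt_of_le_of_lt ?_ (hG v)
    apply mul_le_mul_of_nonneg_right _ (by positivity)
    have h1 : γ * Real.log n / n ≤ 1 / 192 * Real.log n / n := by
      apply div_le_div_of_nonneg_right _ (Nat.cast_nonneg _)
      apply mul_le_mul_of_nonneg_right (min_le_left _ _) (Real.log_natCast_nonneg n)
    linarith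
  · -- `G` is complete
    push Not at hn
    have hcomplete : ∀ v w, v ≠ w → G.Adj v w := by
      intro v w hvw
      by_contra hadj
      have h1 : G.degree v + 2 ≤ 2 ^ n := by
        have h2 : insert v (insert w (G.neighborFinset v)) ⊆ univ := subset_univ _
        have h3 := card_le_card h2
        rw [card_insert_of_notMem, card_insert_of_notMem, G.card_neighborFinset_eq_degree,
          card_univ, Fintype.card_fin] at h3
        · exact h3
        · intro h; exact hadj ((G.mem_neighborFinset v w).mp h)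
        · intro h
          rcases mem_insert.mp h with h | h
          · exact hvw h
          · exact G.loopless.irrefl v ((G.mem_neighborFinset v v).mp h)
      have h1' : (G.degree v : ℝ) + 2 ≤ 2 ^ n := by exact_mod_cast h1
      have h2 := hG v
      have h3 : γ * Real.log n / n * 2 ^ n ≤ 1 := by
        have h4 : Real.log n / n ≤ 1 := by
          rcases Nat.eq_zero_or_pos n with h0 | h0
          · subst h0; simp
          · have h5 : (0 : ℝ) < n := by exact_mod_cast h0
            rw [div_le_one h5]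
            have := Real.log_le_sub_one_of_pos h5
            linarith
        have h5 : (0 : ℝ) ≤ Real.log n / n :=
          div_nonneg (Real.log_natCast_nonneg n) (Nat.cast_nonneg _)
        have h6 : (2 : ℝ) ^ n ≤ 2 ^ (2 * n₀) := pow_le_pow_right₀ (by norm_num) (by omega)
        calc γ * Real.log n / n * 2 ^ n = γ * (Real.log n / n) * 2 ^ n := by ring
          _ ≤ γ * 1 * 2 ^ n := by
              apply mul_le_mul_of_nonneg_right _ (by positivity)
              exact mul_le_mul_of_nonneg_left h4 hγ0.le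
          _ ≤ (1 / (2 ^ (2 * n₀))) * 1 * 2 ^ (2 * n₀) := by
              apply mul_le_mul _ h6 (by positivity) (by positivity)
              exact mul_le_mul_of_nonneg_right (min_le_right _ _) (by norm_num)
          _ = 1 := by
              rw [mul_one, one_div, inv_mul_cancel₀ (by positivity)]
      nlinarith
    have hcard : Fintype.card (Fin n → Bool) = Fintype.card (Fin (2 ^ n)) := by simp
    let e := Fintype.equivOfCardEq hcard
    refine ⟨e.toEmbedding, ?_⟩
    intro x y hxy
    apply hcomplete
    intro h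
    have : x = y := e.injective h
    subst this
    simp at hxy

end Pool.Agent.H16.Cube
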