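import Pool.Agent.H16.Cube.Num

/-!
# The theorem for large `n`
-/

open Finset

set_option linter.unusedSectionVars false

namespace Pool.Agent.H16.Cube

theorem cc_inj {n l : ℕ} (hl : 4 * l ≤ n) : Function.Injective (cc n : (Fin l → ZMod 2) → _) := by
  intro r s h
  funext k
  have h1 := congrFun h ⟨4 * k.1, by have := k.2; omega⟩
  simp only [cc] at h1
  have h2 : 4 * k.1 / 4 < l := by have := k.2; omega
  rw [dif_pos h2, dif_pos h2] at h1
  have h3 : (⟨4 * k.1 / 4, h2⟩ : Fin l) = k := by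
    apply Fin.ext
    simp only
    omega
  rwa [h3] at h1

/-- The conditions on the parameters. -/
theorem params (n : ℕ) (hn : 5 ^ 16 ≤ n) (u N L c O : ℝ) (hu5 : 5 ≤ u) (hu : u ^ 16 = n)
    (hN : N = 2 ^ n) (hL : L ≤ 2 * n ^ 3) (hL1 : 1 ≤ L) (hc0 : 0 < c) (hc : c ≤ 1 / (12 * u ^ 15))
    (hO : O = N / 2) :
    ∃ (k : ℕ) (E : ℝ), 1 ≤ k ∧ 0 < E ∧
      n * ((k : ℝ) ^ 2 * E) + O / (k * u⁻¹) ≤ u⁻¹ / 8 * O ∧
      4 * Real.exp (-((u⁻¹ / 2 * O) ^ 2 / (2 * (n * (c * N) ^ 2)))) * (n * (n * L)) ≤ 1 ∧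
      (N + N ^ k) * Real.exp (-((u⁻¹ / 8 * O) ^ 2 / (2 * (N * (n * L) ^ 2)))) <
        (1 - 2 * Real.exp (-((u⁻¹ / 2 * O) ^ 2 / (2 * (n * (c * N) ^ 2))))) ^ (2 ^ n) ∧
      k * ((c * N) ^ 2 / E + 1) ≤ u⁻¹ / 2 * O := by
  have hupos : 0 < u := by linarith
  have hNpos : 0 < N := by rw [hN]; positivity
  have hn1 : (1 : ℝ) ≤ n := by
    have : 1 ≤ n := le_trans (by norm_num) hn
    exact_mod_cast this
  have hbig : 73728 * u ^ 160 < N := by
    have h1 := (two_pow_big n hn).2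
    rw [← hu, ← hN] at h1
    calc 73728 * u ^ 160 = 73728 * (u ^ 16) ^ 10 := by ring
      _ < N := h1
  have hu1 : 1 ≤ u := by linarith
  -- the number k
  set k : ℕ := ⌈16 * u ^ 2⌉₊ with hk
  have hk1 : 16 * u ^ 2 ≤ (k : ℝ) := Nat.le_ceil _
  have hk2 : (k : ℝ) ≤ 17 * u ^ 2 := by
    have h1 := (Nat.ceil_lt_add_one (show 0 ≤ 16 * u ^ 2 by positivity)).le
    nlinarith
  have hkpos : (0 : ℝ) < k := lt_of_lt_of_le (by positivity) hk1
  have hk3 : (k : ℝ) ^ 3 ≤ 4913 * u ^ 6 := by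
    calc (k : ℝ) ^ 3 ≤ (17 * u ^ 2) ^ 3 := pow_le_pow_left₀ hkpos.le hk2 3
      _ = 4913 * u ^ 6 := by ring
  -- bounds for c
  have hc2 : c ^ 2 * u ^ 30 ≤ 1 / 144 := by
    have h1 : c * u ^ 15 ≤ 1 / 12 := by
      rw [le_div_iff₀ (by positivity)] at hc
      linarith
    have h2 : (c * u ^ 15) ^ 2 ≤ (1 / 12) ^ 2 := pow_le_pow_left₀ (by positivity) h1 2
    calc c ^ 2 * u ^ 30 = (c * u ^ 15) ^ 2 := by ring
      _ ≤ _ := h2
      _ = 1 / 144 := by norm_num
  set E : ℝ := 8 * k * (c * N) ^ 2 * u / N with hE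
  have hEpos : 0 < E := by positivity
  have hEeq : E = 8 * k * c ^ 2 * N * u := by rw [hE]; field_simp
  -- q
  set q : ℝ := Real.exp (-((u⁻¹ / 2 * O) ^ 2 / (2 * (n * (c * N) ^ 2)))) with hq
  have hq0 : 0 < q := Real.exp_pos _
  have hqle : q ≤ Real.exp (-(4 * u ^ 12)) := by
    rw [hq]
    apply Real.exp_le_exp.mpr
    apply neg_le_neg
    rw [le_div_iff₀ (by positivity), hO, ← hu]
    have h1 : 4 * u ^ 12 * (2 * (u ^ 16 * (c * N) ^ 2)) = 8 * (c ^ 2 * u ^ 30) * N ^ 2 * (u⁻¹) ^ 2 := by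
      field_simp
      ring
    have h2 : (u⁻¹ / 2 * (N / 2)) ^ 2 = (1 / 16) * N ^ 2 * (u⁻¹) ^ 2 := by ring
    rw [h1, h2]
    have h3 : 8 * (c ^ 2 * u ^ 30) ≤ 1 / 16 := by linarith
    have h4 : 0 ≤ N ^ 2 * (u⁻¹) ^ 2 := by positivity
    calc 8 * (c ^ 2 * u ^ 30) * N ^ 2 * (u⁻¹) ^ 2 = (8 * (c ^ 2 * u ^ 30)) * (N ^ 2 * (u⁻¹) ^ 2) := by
          ring
      _ ≤ (1 / 16) * (N ^ 2 * (u⁻¹) ^ 2) := mul_le_mul_of_nonneg_right h3 h4
      _ = _ := by ring
  have hqinv : q * Real.exp (4 * u ^ 12) ≤ 1 := by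
    calc q * Real.exp (4 * u ^ 12) ≤ Real.exp (-(4 * u ^ 12)) * Real.exp (4 * u ^ 12) :=
          mul_le_mul_of_nonneg_right hqle (Real.exp_pos _).le
      _ = 1 := by rw [← Real.exp_add]; simp
  have hexp7 : 8 * u ^ 80 ≤ Real.exp (4 * u ^ 12) := by
    have h1 := exp_ge_pow (show 0 ≤ 4 * u ^ 12 by positivity) 7
    refine le_trans ?_ h1
    have hf : (Nat.factorial 7 : ℝ) = 5040 := by norm_num [Nat.factorial]
    rw [hf, le_div_iff₀ (by norm_num)]
    have h2 : (625 : ℝ) ≤ u ^ 4 := by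
      calc (625 : ℝ) = 5 ^ 4 := by norm_num
        _ ≤ u ^ 4 := pow_le_pow_left₀ (by norm_num) hu5 4
    have h3 : 0 ≤ u ^ 80 := by positivity
    calc 8 * u ^ 80 * 5040 = 40320 * u ^ 80 := by ring
      _ ≤ (16384 * u ^ 4) * u ^ 80 := by
          apply mul_le_mul_of_nonneg_right _ h3
          linarith
      _ = (4 * u ^ 12) ^ 7 := by ring
  have hexp12 : 16384 * u ^ 130 ≤ Real.exp (4 * u ^ 12) := by
    have h1 := exp_ge_pow (show 0 ≤ 4 * u ^ 12 by positivity) 12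
    refine le_trans ?_ h1
    have hf : (Nat.factorial 12 : ℝ) = 479001600 := by norm_num [Nat.factorial]
    rw [hf, le_div_iff₀ (by norm_num)]
    have h2 : (6103515625 : ℝ) ≤ u ^ 14 := by
      calc (6103515625 : ℝ) = 5 ^ 14 := by norm_num
        _ ≤ u ^ 14 := pow_le_pow_left₀ (by norm_num) hu5 14
    have h3 : 0 ≤ u ^ 130 := by positivity
    calc 16384 * u ^ 130 * 479001600 = (16384 * 479001600) * u ^ 130 := by ring
      _ ≤ (16777216 * u ^ 14) * u ^ 130 := by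
          apply mul_le_mul_of_nonneg_right _ h3
          linarith
      _ = (4 * u ^ 12) ^ 12 := by ring
  -- n * L
  have hnL : (n : ℝ) * L ≤ 2 * u ^ 64 := by
    have : (n : ℝ) * L ≤ n * (2 * n ^ 3) := mul_le_mul_of_nonneg_left hL (by linarith)
    calc (n : ℝ) * L ≤ n * (2 * n ^ 3) := this
      _ = 2 * u ^ 64 := by rw [← hu]; ring
  have hnL0 : 0 < (n : ℝ) * L := by positivity
  -- N as a bound
  have hbig' : 136 * u ^ 3 ≤ N := by
    have h1 : u ^ 3 ≤ u ^ 160 := pow_le_pow_right₀ hu1 (by norm_num)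
    have h2 : 0 ≤ u ^ 160 := by positivity
    linarith
  refine ⟨k, E, ?_, hEpos, ?_, ?_, ?_, ?_⟩
  · have : (0 : ℕ) < k := by exact_mod_cast hkpos
    exact this
  · -- num1
    have h1 : O / (k * u⁻¹) ≤ N / (32 * u) := by
      rw [hO, div_le_div_iff₀ (by positivity) (by positivity)]
      have h2 : N / 2 * (32 * u) = N * u⁻¹ * (16 * u ^ 2) := by field_simp; ring
      rw [h2]
      calc N * u⁻¹ * (16 * u ^ 2) ≤ N * u⁻¹ * k :=
            mul_le_mul_of_nonneg_left hk1 (by positivity)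
        _ = N * (k * u⁻¹) := by ring
    have h2 : n * ((k : ℝ) ^ 2 * E) ≤ N / (32 * u) := by
      rw [hEeq, ← hu, le_div_iff₀ (by positivity)]
      have h3 : u ^ 16 * ((k : ℝ) ^ 2 * (8 * k * c ^ 2 * N * u)) * (32 * u) =
          (256 * (k : ℝ) ^ 3) * (c ^ 2 * u ^ 30) * N * (u⁻¹) ^ 12 := by
        field_simp
        ring
      rw [h3]
      have h4 : (256 * (k : ℝ) ^ 3) * (c ^ 2 * u ^ 30) ≤ (256 * (4913 * u ^ 6)) * (1 / 144) := by
        apply mul_le_mul _ hc2 (by positivity) (by positivity)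
        linarith
      have h5 : (256 * (4913 * u ^ 6)) * (1 / 144) * (u⁻¹) ^ 12 ≤ 1 := by
        have h6 : (256 * (4913 * u ^ 6)) * (1 / 144) * (u⁻¹) ^ 12 =
            (256 * 4913 / 144) * (u⁻¹) ^ 6 := by field_simp
        rw [h6]
        have h7 : (u⁻¹) ^ 6 ≤ (5⁻¹ : ℝ) ^ 6 :=
          pow_le_pow_left₀ (by positivity) (inv_anti₀ (by norm_num) hu5) 6
        calc (256 * 4913 / 144 : ℝ) * (u⁻¹) ^ 6 ≤ (256 * 4913 / 144) * (5⁻¹ : ℝ) ^ 6 :=
              mul_le_mul_of_nonneg_left h7 (by norm_num)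
          _ ≤ 1 := by norm_num
      calc (256 * (k : ℝ) ^ 3) * (c ^ 2 * u ^ 30) * N * (u⁻¹) ^ 12
          = ((256 * (k : ℝ) ^ 3) * (c ^ 2 * u ^ 30)) * (N * (u⁻¹) ^ 12) := by ring
        _ ≤ ((256 * (4913 * u ^ 6)) * (1 / 144)) * (N * (u⁻¹) ^ 12) :=
            mul_le_mul_of_nonneg_right h4 (by positivity)
        _ = ((256 * (4913 * u ^ 6)) * (1 / 144) * (u⁻¹) ^ 12) * N := by ring
        _ ≤ 1 * N := mul_le_mul_of_nonneg_right h5 hNpos.le
        _ = N := one_mul _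
    have h3 : u⁻¹ / 8 * O = N / (32 * u) + N / (32 * u) := by
      rw [hO]; field_simp; ring
    rw [h3]
    linarith
  · -- num2
    have h1 : (n : ℝ) * (n * L) ≤ 2 * u ^ 80 := by
      calc (n : ℝ) * (n * L) ≤ n * (2 * u ^ 64) := mul_le_mul_of_nonneg_left hnL (by linarith)
        _ = 2 * u ^ 80 := by rw [← hu]; ring
    calc 4 * q * (n * (n * L)) ≤ 4 * q * (2 * u ^ 80) :=
          mul_le_mul_of_nonneg_left h1 (by positivity)
      _ = q * (8 * u ^ 80) := by ring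
      _ ≤ q * Real.exp (4 * u ^ 12) := mul_le_mul_of_nonneg_left hexp7 hq0.le
      _ ≤ 1 := hqinv
  · -- num3
    set w : ℝ := (u⁻¹ / 8 * O) ^ 2 / (2 * (N * (n * L) ^ 2)) with hw
    have hwge : N / (2048 * u ^ 130) ≤ w := by
      rw [hw, div_le_div_iff₀ (by positivity) (by positivity), hO]
      have h1 : (n * L) ^ 2 ≤ (2 * u ^ 64) ^ 2 := pow_le_pow_left₀ hnL0.le hnL 2
      calc N * (2 * (N * (n * L) ^ 2)) ≤ N * (2 * (N * (2 * u ^ 64) ^ 2)) := by
            apply mul_le_mul_of_nonneg_left _ hNpos.le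
            apply mul_le_mul_of_nonneg_left _ (by norm_num)
            exact mul_le_mul_of_nonneg_left h1 hNpos.le
        _ = (u⁻¹ / 8 * (N / 2)) ^ 2 * (2048 * u ^ 130) := by
            field_simp
            ring
    have h4qN : 4 * q * N ≤ N / (4096 * u ^ 130) := by
      rw [le_div_iff₀ (by positivity)]
      calc 4 * q * N * (4096 * u ^ 130) = (q * (16384 * u ^ 130)) * N := by ring
        _ ≤ (q * Real.exp (4 * u ^ 12)) * N := by
            apply mul_le_mul_of_nonneg_right _ hNpos.le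
            exact mul_le_mul_of_nonneg_left hexp12 hq0.le
        _ ≤ 1 * N := mul_le_mul_of_nonneg_right hqinv hNpos.le
        _ = N := one_mul _
    have hkn : ((k : ℝ) + 1) * n < N / (4096 * u ^ 130) := by
      rw [lt_div_iff₀ (by positivity), ← hu]
      have h1 : (k : ℝ) + 1 ≤ 18 * u ^ 2 := by nlinarith
      calc ((k : ℝ) + 1) * u ^ 16 * (4096 * u ^ 130)
          ≤ (18 * u ^ 2) * u ^ 16 * (4096 * u ^ 130) := by
            apply mul_le_mul_of_nonneg_right _ (by positivity)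
            exact mul_le_mul_of_nonneg_right h1 (by positivity)
        _ = 73728 * u ^ 148 := by ring
        _ ≤ 73728 * u ^ 160 := by
            apply mul_le_mul_of_nonneg_left _ (by norm_num)
            exact pow_le_pow_right₀ hu1 (by norm_num)
        _ < N := hbig
    have hN2 : 2 ≤ N := by nlinarith
    have h1 : N + N ^ k ≤ N ^ (k + 1) := by
      have hk0 : 1 ≤ k := by
        have : (0 : ℕ) < k := by exact_mod_cast hkpos
        exact this
      have h2 : N ≤ N ^ k := by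
        calc N = N ^ 1 := (pow_one N).symm
          _ ≤ N ^ k := pow_le_pow_right₀ (by linarith) hk0
      have h3 : 0 < N ^ k := by positivity
      rw [pow_succ]
      nlinarith
    have h2 : N ^ (k + 1) ≤ Real.exp (((k : ℝ) + 1) * n) := by
      rw [hN, ← pow_mul]
      have h3 : (2 : ℝ) ≤ Real.exp 1 := by
        have := Real.exp_one_gt_d9
        linarith
      calc (2 : ℝ) ^ (n * (k + 1)) ≤ (Real.exp 1) ^ (n * (k + 1)) :=
            pow_le_pow_left₀ (by norm_num) h3 _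
        _ = Real.exp (((k : ℝ) + 1) * n) := by
            rw [← Real.exp_nat_mul]
            congr 1
            push_cast
            ring
    have h2q : 2 * q ≤ 1 / 2 := by
      have h3 : (4 : ℝ) ≤ Real.exp (4 * u ^ 12) := by
        refine le_trans ?_ hexp7
        have : 1 ≤ u ^ 80 := one_le_pow₀ hu1
        linarith
      have h4 : q * 4 ≤ 1 := le_trans (mul_le_mul_of_nonneg_left h3 hq0.le) hqinv
      linarith
    have h5 : Real.exp (-(4 * q * N)) ≤ (1 - 2 * q) ^ (2 ^ n) := by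
      have h6 := one_sub_ge (show 0 ≤ 2 * q by positivity) h2q
      calc Real.exp (-(4 * q * N)) = (Real.exp (-(2 * (2 * q)))) ^ (2 ^ n) := by
            rw [← Real.exp_nat_mul, hN]
            congr 1
            push_cast
            ring
        _ ≤ _ := pow_le_pow_left₀ (Real.exp_pos _).le h6 _
    refine lt_of_lt_of_le ?_ h5
    calc (N + N ^ k) * Real.exp (-w) ≤ Real.exp (((k : ℝ) + 1) * n) * Real.exp (-w) :=
          mul_le_mul_of_nonneg_right (h1.trans h2) (Real.exp_pos _).le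
      _ = Real.exp (((k : ℝ) + 1) * n - w) := by rw [← Real.exp_add]; rfl
      _ < Real.exp (-(4 * q * N)) := by
          apply Real.exp_lt_exp.mpr
          have h7 : N / (2048 * u ^ 130) = N / (4096 * u ^ 130) + N / (4096 * u ^ 130) := by
            field_simp; ring
          linarith
  · -- num4
    have h1 : (k : ℝ) * ((c * N) ^ 2 / E) = N / (8 * u) := by
      rw [hE]
      field_simp
    have h2 : (k : ℝ) ≤ N / (8 * u) := by
      rw [le_div_iff₀ (by positivity)]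
      calc (k : ℝ) * (8 * u) ≤ (17 * u ^ 2) * (8 * u) :=
            mul_le_mul_of_nonneg_right hk2 (by positivity)
        _ = 136 * u ^ 3 := by ring
        _ ≤ N := hbig'
    have h3 : u⁻¹ / 2 * O = N / (8 * u) + N / (8 * u) := by
      rw [hO]; field_simp; ring
    rw [h3, mul_add, mul_one, h1]
    linarith

end Pool.Agent.H16.Cube
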