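import Pool.Agent.H16.Cube.Tails

/-!
# The embedding: local lemma, union bound and Hall's theorem
-/

open Finset

set_option linter.unusedSectionVars false

namespace Pool.Agent.H16.Cube

variable {Q R : Type} [Fintype Q] [DecidableEq Q] [Fintype R] [DecidableEq R] {n : ℕ}

namespace BC

variable (K : BC Q R n) (adj : Q → Q → Prop) [DecidableRel adj]
  (hsymm : ∀ u v, adj u v → adj v u)
  (Δ θ a : ℝ) (hΔ : ∀ v, ((Nb adj v).card : ℝ) ≤ Δ)
  (hθ0 : 0 ≤ θ) (hθ1 : θ ≤ 1)
  (hrep : ∀ v x, ((univ.filter (fun r => K.sh r x ∈ Nb adj v)).card : ℝ) ≤ θ * Fintype.card R)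
  (ha : a ≤ (1 - θ) ^ n) (ha0 : 0 < a)

include hsymm hΔ in
theorem codeg_count (hΔ0 : 0 ≤ Δ) (v : Q) (E : ℝ) (hE : 0 < E) :
    ((univ.filter (fun v' => E < ((Nb adj v ∩ Nb adj v').card : ℝ))).card : ℝ) ≤ Δ ^ 2 / E := by
  classical
  rw [le_div_iff₀ hE]
  have h1 : ∑ v', (Nb adj v ∩ Nb adj v').card = ∑ z ∈ Nb adj v, (Nb adj z).card := by
    have h2 : ∀ v', (Nb adj v ∩ Nb adj v').card =
        ∑ z ∈ Nb adj v, if adj v' z then 1 else 0 := by
      intro v'
      rw [← card_filter]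
      congr 1
      ext z
      simp [Nb]
    rw [sum_congr rfl (fun v' _ => h2 v'), sum_comm]
    apply sum_congr rfl
    intro z _
    rw [← card_filter]
    congr 1
    ext v'
    simp only [Nb, mem_filter, mem_univ, true_and]
    exact ⟨hsymm _ _, hsymm _ _⟩
  have h1' : ∑ v', ((Nb adj v ∩ Nb adj v').card : ℝ) = ∑ z ∈ Nb adj v, ((Nb adj z).card : ℝ) := by
    exact_mod_cast h1
  calc _ = ∑ _v' ∈ univ.filter (fun v' => E < ((Nb adj v ∩ Nb adj v').card : ℝ)), E := by
        rw [sum_const, nsmul_eq_mul]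
    _ ≤ ∑ v' ∈ univ.filter (fun v' => E < ((Nb adj v ∩ Nb adj v').card : ℝ)),
        ((Nb adj v ∩ Nb adj v').card : ℝ) :=
        sum_le_sum (fun v' hv' => (mem_filter.mp hv').2.le)
    _ ≤ ∑ v', ((Nb adj v ∩ Nb adj v').card : ℝ) :=
        sum_le_sum_of_subset_of_nonneg (subset_univ _) (fun _ _ _ => Nat.cast_nonneg _)
    _ = ∑ z ∈ Nb adj v, ((Nb adj z).card : ℝ) := h1'
    _ ≤ ∑ _z ∈ Nb adj v, Δ := sum_le_sum (fun z _ => hΔ z)
    _ = (Nb adj v).card * Δ := by rw [sum_const, nsmul_eq_mul]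
    _ ≤ Δ * Δ := mul_le_mul_of_nonneg_right (hΔ v) hΔ0
    _ = Δ ^ 2 := by ring

include hsymm hΔ in
theorem select (hΔ0 : 0 ≤ Δ) (E : ℝ) (hE : 0 < E) (T : Finset Q) (j : ℕ)
    (hj : j * (Δ ^ 2 / E + 1) ≤ (T.card : ℝ)) :
    ∃ T₀ ⊆ T, T₀.card = j ∧
      ∀ v ∈ T₀, ∀ v' ∈ T₀, v ≠ v' → ((Nb adj v ∩ Nb adj v').card : ℝ) ≤ E := by
  classical
  have hDE : 0 ≤ Δ ^ 2 / E := by positivity
  induction j with
  | zero => exact ⟨∅, empty_subset _, by simp, by simp⟩
  | succ j ih =>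
    push_cast at hj
    obtain ⟨T₀, hT₀, hc, hp⟩ := ih (by linarith)
    let X : Q → Finset Q := fun v => insert v
      (univ.filter (fun v' => E < ((Nb adj v ∩ Nb adj v').card : ℝ)))
    have hX : ∀ v, ((X v).card : ℝ) ≤ Δ ^ 2 / E + 1 := by
      intro v
      have h1 := card_insert_le v (univ.filter (fun v' => E < ((Nb adj v ∩ Nb adj v').card : ℝ)))
      have h2 := codeg_count adj hsymm Δ hΔ hΔ0 v E hE
      have h1' : ((X v).card : ℝ) ≤
          ((univ.filter (fun v' => E < ((Nb adj v ∩ Nb adj v').card : ℝ))).card : ℝ) + 1 := by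
        exact_mod_cast h1
      linarith
    have h3 : ((T₀.biUnion X).card : ℝ) < T.card := by
      have h4 : ((T₀.biUnion X).card : ℝ) ≤ ∑ v ∈ T₀, ((X v).card : ℝ) := by
        exact_mod_cast card_biUnion_le
      have h5 : ∑ v ∈ T₀, ((X v).card : ℝ) ≤ j * (Δ ^ 2 / E + 1) := by
        calc _ ≤ ∑ _v ∈ T₀, (Δ ^ 2 / E + 1) := sum_le_sum (fun v _ => hX v)
          _ = _ := by rw [sum_const, nsmul_eq_mul, hc]
      nlinarith
    obtain ⟨w, hw, hwX⟩ := exists_mem_notMem_of_card_lt_card (by exact_mod_cast h3)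
    have hw' : ∀ v ∈ T₀, w ≠ v ∧ ((Nb adj v ∩ Nb adj w).card : ℝ) ≤ E := by
      intro v hv
      have : w ∉ X v := fun h => hwX (mem_biUnion.mpr ⟨v, hv, h⟩)
      simp only [X, mem_insert, mem_filter, mem_univ, true_and, not_or, not_lt] at this
      exact this
    have hwT₀ : w ∉ T₀ := fun h => (hw' w h).1 rfl
    refine ⟨insert w T₀, insert_subset hw hT₀, ?_, ?_⟩
    · rw [card_insert_of_notMem hwT₀, hc]
    · intro v hv v' hv' hne
      rcases mem_insert.mp hv with h | h <;> rcases mem_insert.mp hv' with h' | h'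
      · exact absurd (h.trans h'.symm) hne
      · rw [h, inter_comm]; exact (hw' v' h').2
      · rw [h']; exact (hw' v h).2
      · exact hp v h v' h' hne

/-- The embedding. -/
theorem embed (hsymm : ∀ u v, adj u v → adj v u)
    (hΔ : ∀ v, ((Nb adj v).card : ℝ) ≤ Δ)
    (hθ0 : 0 ≤ θ) (hθ1 : θ ≤ 1)
    (hrep : ∀ v x, ((univ.filter (fun r => K.sh r x ∈ Nb adj v)).card : ℝ) ≤ θ * Fintype.card R)
    (ha : a ≤ (1 - θ) ^ n) (ha0 : 0 < a)
    (hn : 1 ≤ n) [Nonempty R] (hΔ0 : 0 < Δ) (k : ℕ) (hk : 1 ≤ k) (E : ℝ) (hE : 0 < E)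
    (q e₂ : ℝ)
    (hq : q = Real.exp (-((a / 2 * K.O.card) ^ 2 / (2 * (n * Δ ^ 2)))))
    (he₂ : e₂ = Real.exp (-((a / 8 * K.O.card) ^ 2 /
        (2 * (Fintype.card Q * ((n * Fintype.card R : ℕ) : ℝ) ^ 2)))))
    (num1 : n * ((k : ℝ) ^ 2 * E) + K.O.card / (k * a) ≤ a / 8 * K.O.card)
    (num2 : 4 * q * ((n * (n * Fintype.card R) : ℕ) : ℝ) ≤ 1)
    (num3 : (Fintype.card Q + (Fintype.card Q : ℝ) ^ k) * e₂ < (1 - 2 * q) ^ Fintype.card Q)
    (num4 : k * (Δ ^ 2 / E + 1) ≤ a / 2 * K.O.card) :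
    ∃ F : Q → Q, Function.Injective F ∧ ∀ x i, ¬ adj (F x) (F (K.nbr i x)) := by
  classical
  have hΩ : (0 : ℝ) < Fintype.card (Q → R) := by exact_mod_cast Fintype.card_pos
  have hR1 : 1 ≤ Fintype.card R := Fintype.card_pos
  have hq0 : 0 < q := by rw [hq]; exact Real.exp_pos _
  have he0 : 0 < e₂ := by rw [he₂]; exact Real.exp_pos _
  have h4q : 4 * q ≤ 1 := by
    have h1 : (1 : ℝ) ≤ ((n * (n * Fintype.card R) : ℕ) : ℝ) := by
      exact_mod_cast Nat.mul_pos hn (Nat.mul_pos hn hR1)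
    nlinarith
  -- local lemma
  have hlll := lll (E := K.Ebad adj (a / 2 * K.O.card)) (S := K.img)
    (fun y => K.Ebad_dep adj _ y) hq0.le
    (fun y => by
      rw [hq]
      exact K.Ebad_card adj hsymm Δ θ a hΔ hθ0 hθ1 hrep ha ha0 hn hΔ0 y)
    (fun y => K.dep_count y) num2 (by linarith)
  -- the other bad events
  let G₁ : Finset (Q → R) := univ.biUnion (fun v : Q => K.Fbad adj (a / 2 * K.O.card) v)
  let 𝒯 : Finset (Finset Q) := (univ.powersetCard k).filter (fun T =>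
    ∀ v ∈ T, ∀ v' ∈ T, v ≠ v' → ((Nb adj v ∩ Nb adj v').card : ℝ) ≤ E)
  let G₂ : Finset (Q → R) := 𝒯.biUnion (fun T => K.Tbad adj (a / 4 * K.O.card) T)
  have hG₁ : (G₁.card : ℝ) ≤ Fintype.card Q * (e₂ * Fintype.card (Q → R)) := by
    have h1 : (G₁.card : ℝ) ≤ ∑ v, ((K.Fbad adj (a / 2 * K.O.card) v).card : ℝ) := by
      exact_mod_cast card_biUnion_le
    refine h1.trans ?_
    calc _ ≤ ∑ _v : Q, e₂ * Fintype.card (Q → R) := by
          apply sum_le_sum
          intro v _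
          refine (K.Fbad_card adj θ a hθ0 hθ1 hrep ha ha0 hn v).trans ?_
          apply mul_le_mul_of_nonneg_right _ hΩ.le
          rw [he₂]
          apply Real.exp_le_exp.mpr
          apply neg_le_neg
          apply div_le_div_of_nonneg_right _ (by positivity)
          apply pow_le_pow_left₀ (by positivity)
          apply mul_le_mul_of_nonneg_right _ (Nat.cast_nonneg _)
          linarith
      _ = _ := by rw [sum_const, card_univ, nsmul_eq_mul]
  have hG₂ : (G₂.card : ℝ) ≤ (Fintype.card Q : ℝ) ^ k * (e₂ * Fintype.card (Q → R)) := by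
    have h1 : (G₂.card : ℝ) ≤ ∑ T ∈ 𝒯, ((K.Tbad adj (a / 4 * K.O.card) T).card : ℝ) := by
      exact_mod_cast card_biUnion_le
    refine h1.trans ?_
    calc _ ≤ ∑ _T ∈ 𝒯, e₂ * Fintype.card (Q → R) := by
          apply sum_le_sum
          intro T hT
          obtain ⟨hT1, hT2⟩ := mem_filter.mp hT
          have hTc := (mem_powersetCard.mp hT1).2
          rw [he₂]
          refine K.Tbad_card adj θ a hθ0 hθ1 hrep ha ha0 hn T (by omega) E hT2 hE.le ?_
          rw [hTc]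
          exact num1
      _ = (𝒯.card : ℝ) * (e₂ * Fintype.card (Q → R)) := by rw [sum_const, nsmul_eq_mul]
      _ ≤ _ := by
          apply mul_le_mul_of_nonneg_right _ (by positivity)
          have h2 : 𝒯.card ≤ Fintype.card Q ^ k := by
            calc 𝒯.card ≤ (univ.powersetCard k : Finset (Finset Q)).card := card_filter_le _ _
              _ = (Fintype.card Q).choose k := by rw [card_powersetCard, card_univ]
              _ ≤ _ := Nat.choose_le_pow _ _
          exact_mod_cast h2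
  -- a good placement
  obtain ⟨ρ, hρ1, hρ2⟩ : ∃ ρ ∈ avoid (K.Ebad adj (a / 2 * K.O.card)) univ, ρ ∉ G₁ ∪ G₂ := by
    apply exists_mem_notMem_of_card_lt_card
    have h1 : ((G₁ ∪ G₂).card : ℝ) ≤ (G₁.card : ℝ) + G₂.card := by
      exact_mod_cast card_union_le _ _
    have h2 : ((G₁ ∪ G₂).card : ℝ) <
        ((avoid (K.Ebad adj (a / 2 * K.O.card)) univ).card : ℝ) := by
      calc ((G₁ ∪ G₂).card : ℝ) ≤ (G₁.card : ℝ) + G₂.card := h1
        _ ≤ ((Fintype.card Q + (Fintype.card Q : ℝ) ^ k) * e₂) * Fintype.card (Q → R) := by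
            linarith
        _ < (1 - 2 * q) ^ Fintype.card Q * Fintype.card (Q → R) :=
            mul_lt_mul_of_pos_right num3 hΩ
        _ ≤ _ := hlll
    exact_mod_cast h2
  have hX : ∀ y, a / 2 * K.O.card < ((K.cand adj ρ y).card : ℝ) := by
    intro y
    have := (mem_filter.mp hρ1).2 y (mem_univ _)
    simp only [Ebad, mem_filter, mem_univ, true_and, not_le] at this
    exact this
  have hY : ∀ v, a / 2 * K.O.card <
      ((K.O.filter (fun y => ρ ∈ K.av y (Nb adj v))).card : ℝ) := by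
    intro v
    have : ρ ∉ K.Fbad adj (a / 2 * K.O.card) v := fun h =>
      hρ2 (mem_union_left _ (mem_biUnion.mpr ⟨v, mem_univ _, h⟩))
    simp only [Fbad, mem_filter, mem_univ, true_and, not_le] at this
    exact this
  have hT : ∀ T ∈ 𝒯, ((K.badY adj T ρ).card : ℝ) < a / 4 * K.O.card := by
    intro T hT
    have : ρ ∉ K.Tbad adj (a / 4 * K.O.card) T := fun h =>
      hρ2 (mem_union_right _ (mem_biUnion.mpr ⟨T, hT, h⟩))
    simp only [Tbad, mem_filter, mem_univ, true_and, not_le] at this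
    exact this
  -- Hall's theorem
  have hall : ∀ s : Finset ↥K.O, s.card ≤ (s.biUnion (fun y => K.cand adj ρ y.1)).card := by
    intro s
    by_contra hcon
    push Not at hcon
    set U := s.biUnion (fun y => K.cand adj ρ y.1) with hU
    have hUO : U ⊆ K.O := by
      intro v hv
      obtain ⟨y, _, hy⟩ := mem_biUnion.mp hv
      exact (mem_filter.mp hy).1
    have hsne : s.Nonempty := by
      rw [← card_pos]; omega
    obtain ⟨y₀, hy₀⟩ := hsne
    have hU1 : a / 2 * K.O.card < (U.card : ℝ) := by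
      refine lt_of_lt_of_le (hX y₀.1) ?_
      have : K.cand adj ρ y₀.1 ⊆ U := by
        rw [hU]
        exact subset_biUnion_of_mem (fun y : ↥K.O => K.cand adj ρ y.1) hy₀
      exact_mod_cast card_le_card this
    set s' : Finset Q := s.map (Function.Embedding.subtype _) with hs'
    have hs'card : s'.card = s.card := card_map _
    have hs'O : s' ⊆ K.O := by
      intro y hy
      obtain ⟨z, _, hz⟩ := mem_map.mp hy
      rw [← hz]; exact z.2
    have hsO : s.card ≤ K.O.card := by rw [← hs'card]; exact card_le_card hs'O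
    set T := K.O \ U with hTdef
    have hTcard : T.card + U.card = K.O.card := by
      rw [hTdef, card_sdiff_of_subset hUO]
      have := card_le_card hUO
      omega
    have hTne : T.Nonempty := by rw [← card_pos]; omega
    obtain ⟨v₀, hv₀⟩ := hTne
    have hnoT : ∀ v ∈ T, ∀ y ∈ s', ρ ∉ K.av y (Nb adj v) := by
      intro v hv y hy hav
      obtain ⟨z, hz, hzy⟩ := mem_map.mp hy
      have hzy' : z.1 = y := hzy
      have hvT := mem_sdiff.mp hv
      apply hvT.2
      rw [hU]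
      refine mem_biUnion.mpr ⟨z, hz, mem_filter.mpr ⟨hvT.1, ?_⟩⟩
      rw [hzy']; exact hav
    have hTbig : a / 2 * K.O.card < (T.card : ℝ) := by
      have h1 : s' ∪ K.O.filter (fun y => ρ ∈ K.av y (Nb adj v₀)) ⊆ K.O :=
        union_subset hs'O (filter_subset _ _)
      have h2 : Disjoint s' (K.O.filter (fun y => ρ ∈ K.av y (Nb adj v₀))) := by
        rw [disjoint_left]
        intro y hy hy'
        exact hnoT v₀ hv₀ y hy (mem_filter.mp hy').2
      have h3 := card_le_card h1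
      rw [card_union_of_disjoint h2, hs'card] at h3
      have h4 : ((K.O.filter (fun y => ρ ∈ K.av y (Nb adj v₀))).card : ℝ) ≤ T.card := by
        have : (K.O.filter (fun y => ρ ∈ K.av y (Nb adj v₀))).card ≤ T.card := by omega
        exact_mod_cast this
      linarith [hY v₀]
    obtain ⟨T₀, hT₀T, hT₀c, hT₀p⟩ := select adj hsymm Δ hΔ hΔ0.le E hE T k (by linarith)
    have hT₀ : T₀ ∈ 𝒯 := mem_filter.mpr ⟨mem_powersetCard.mpr ⟨subset_univ _, hT₀c⟩, hT₀p⟩
    have h5 : s' ⊆ K.badY adj T₀ ρ := by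
      intro y hy
      exact mem_filter.mpr ⟨hs'O hy, fun v hv => hnoT v (hT₀T hv) y hy⟩
    have h6 := card_le_card h5
    rw [hs'card] at h6
    have h7 : (U.card : ℝ) < ((K.badY adj T₀ ρ).card : ℝ) := by
      exact_mod_cast lt_of_lt_of_le hcon h6
    have h8 := hT T₀ hT₀
    have h9 : a / 4 * K.O.card ≤ a / 2 * K.O.card := by
      apply mul_le_mul_of_nonneg_right _ (Nat.cast_nonneg _)
      linarith
    linarith
  obtain ⟨f, hfinj, hf⟩ := (all_card_le_biUnion_card_iff_exists_injective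
    (fun y : ↥K.O => K.cand adj ρ y.1)).mp hall
  let F : Q → Q := fun x => if h : x ∈ K.O then f ⟨x, h⟩ else K.g ρ x
  have hF1 : ∀ x (h : x ∈ K.O), F x = f ⟨x, h⟩ := by intro x h; simp [F, h]
  have hF2 : ∀ x, x ∉ K.O → F x = K.g ρ x := by intro x h; simp [F, h]
  have hfO : ∀ y, f y ∈ K.O := fun y => (mem_filter.mp (hf y)).1
  have hgood : ∀ x i, x ∈ K.O → ¬ adj (F x) (F (K.nbr i x)) := by
    intro x i hx hadj
    have hnx : K.nbr i x ∉ K.O := (K.nbr_O i x).mp hx
    rw [hF1 x hx, hF2 _ hnx] at hadj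
    have h1 := (mem_filter.mp (hf ⟨x, hx⟩)).2
    simp only [av, mem_filter, mem_univ, true_and] at h1
    exact h1 i (mem_filter.mpr ⟨mem_univ _, hadj⟩)
  refine ⟨F, ?_, ?_⟩
  · intro x x' hxx
    by_cases hx : x ∈ K.O <;> by_cases hx' : x' ∈ K.O
    · rw [hF1 x hx, hF1 x' hx'] at hxx
      exact congrArg Subtype.val (hfinj hxx)
    · rw [hF1 x hx, hF2 x' hx'] at hxx
      exact absurd ((K.g_O ρ x').mp (hxx ▸ hfO _)) hx'
    · rw [hF2 x hx, hF1 x' hx'] at hxx
      exact absurd ((K.g_O ρ x).mp (hxx ▸ hfO _)) hx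
    · rw [hF2 x hx, hF2 x' hx'] at hxx
      exact K.g_inj ρ hxx
  · intro x i
    by_cases hx : x ∈ K.O
    · exact hgood x i hx
    · have hnx : K.nbr i x ∈ K.O := by
        by_contra h
        exact hx ((K.nbr_O i x).mpr h)
      intro hadj
      have := hgood (K.nbr i x) i hnx
      rw [K.nbr_inv] at this
      exact this (hsymm _ _ hadj)

end BC

end Pool.Agent.H16.Cube
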