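import Mathlib

/-!
# The local lemma on finite product spaces (symmetric form, counting version)
-/

open Finset

namespace Pool.Agent.H16.Cube

variable {ι α : Type} [Fintype ι] [DecidableEq ι] [Fintype α] [DecidableEq α]

/-- The set `A` of functions depends only on the coordinates in `S`. -/
def DependsOn (A : Finset (ι → α)) (S : Finset ι) : Prop :=
  ∀ ω ω' : ι → α, (∀ i ∈ S, ω i = ω' i) → (ω ∈ A → ω' ∈ A)

/-- Exchange the coordinates outside `S`. -/
def mix (S : Finset ι) (ω ω' : ι → α) : ι → α := fun i => if i ∈ S then ω i else ω' i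

theorem card_inter_indep (A B : Finset (ι → α)) (S T : Finset ι) (hA : DependsOn A S)
    (hB : DependsOn B T) (hST : Disjoint S T) :
    (A ∩ B).card * Fintype.card (ι → α) = A.card * B.card := by
  classical
  have h1 : (A ∩ B).card * Fintype.card (ι → α) = ((A ∩ B) ×ˢ (univ : Finset (ι → α))).card := by
    rw [card_product, card_univ]
  rw [h1, ← card_product]
  have hmixA : ∀ a b : ι → α, ∀ i ∈ S, mix S a b i = a i := by
    intro a b i hi; simp [mix, hi]
  have hmixB : ∀ a b : ι → α, ∀ i ∈ T, mix S a b i = b i := by
    intro a b i hi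
    have : i ∉ S := fun h => (Finset.disjoint_left.mp hST h hi)
    simp [mix, this]
  refine card_bij' (fun p _ => (mix S p.1 p.2, mix S p.2 p.1))
    (fun p _ => (mix S p.1 p.2, mix S p.2 p.1)) ?_ ?_ ?_ ?_
  · rintro ⟨a, b⟩ hp
    have hp' := mem_product.mp hp
    have ha := mem_inter.mp hp'.1
    refine mem_product.mpr ⟨?_, ?_⟩
    · exact hA a _ (fun i hi => (hmixA a b i hi).symm) ha.1
    · exact hB a _ (fun i hi => (hmixB b a i hi).symm) ha.2
  · rintro ⟨a, b⟩ hp
    have hp' := mem_product.mp hp
    refine mem_product.mpr ⟨mem_inter.mpr ⟨?_, ?_⟩, mem_univ _⟩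
    · exact hA a _ (fun i hi => (hmixA a b i hi).symm) hp'.1
    · exact hB b _ (fun i hi => (hmixB a b i hi).symm) hp'.2
  · rintro ⟨a, b⟩ _
    refine Prod.ext ?_ ?_ <;> funext i <;> by_cases hi : i ∈ S <;> simp [mix, hi]
  · rintro ⟨a, b⟩ _
    refine Prod.ext ?_ ?_ <;> funext i <;> by_cases hi : i ∈ S <;> simp [mix, hi]

variable {Y : Type} [Fintype Y] [DecidableEq Y]

/-- The functions avoiding all events in `s`. -/
def avoid (E : Y → Finset (ι → α)) (s : Finset Y) : Finset (ι → α) :=
  univ.filter (fun ω => ∀ y ∈ s, ω ∉ E y)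

theorem avoid_depends {E : Y → Finset (ι → α)} {S : Y → Finset ι}
    (hE : ∀ y, DependsOn (E y) (S y)) (s : Finset Y) : DependsOn (avoid E s) (s.biUnion S) := by
  intro ω ω' h hω
  simp only [avoid, mem_filter, mem_univ, true_and] at hω ⊢
  intro y hy hy'
  refine hω y hy (hE y ω' ω ?_ hy')
  intro i hi
  exact (h i (mem_biUnion.mpr ⟨y, hy, hi⟩)).symm

theorem lll_aux {E : Y → Finset (ι → α)} {S : Y → Finset ι}
    (hE : ∀ y, DependsOn (E y) (S y)) {q : ℝ} (hq0 : 0 ≤ q) {D : ℕ} [Nonempty α]
    (hq : ∀ y, ((E y).card : ℝ) ≤ q * Fintype.card (ι → α))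
    (hD : ∀ y, (univ.filter (fun z => z ≠ y ∧ ¬ Disjoint (S y) (S z))).card ≤ D)
    (h4 : 4 * q * D ≤ 1) :
    ∀ (m : ℕ) (s : Finset Y), s.card ≤ m → ∀ y, y ∉ s →
      ((E y ∩ avoid E s).card : ℝ) ≤ 2 * q * (avoid E s).card := by
  classical
  have hΩ : (0 : ℝ) < Fintype.card (ι → α) := by exact_mod_cast Fintype.card_pos
  intro m
  induction m with
  | zero =>
    intro s hs y _
    have : s = ∅ := by simpa using hs
    subst this
    have h1 : avoid E (∅ : Finset Y) = univ := by simp [avoid]
    rw [h1, inter_univ, card_univ]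
    have := hq y
    nlinarith
  | succ m ih =>
    intro s hs y hy
    set s₁ := s.filter (fun z => ¬ Disjoint (S y) (S z)) with hs₁
    set s₂ := s.filter (fun z => Disjoint (S y) (S z)) with hs₂
    -- independence of the part s₂
    have hind : ((E y ∩ avoid E s₂).card : ℝ) ≤ q * (avoid E s₂).card := by
      have h := card_inter_indep (E y) (avoid E s₂) (S y) (s₂.biUnion S) (hE y)
        (avoid_depends hE s₂) (by
          rw [disjoint_biUnion_right]
          intro z hz
          exact (mem_filter.mp hz).2)
      have h' : ((E y ∩ avoid E s₂).card : ℝ) * Fintype.card (ι → α) =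
          (E y).card * (avoid E s₂).card := by exact_mod_cast h
      have h2 : ((E y ∩ avoid E s₂).card : ℝ) * Fintype.card (ι → α) ≤
          (q * (avoid E s₂).card) * Fintype.card (ι → α) := by
        rw [h']
        calc ((E y).card : ℝ) * (avoid E s₂).card
            ≤ (q * Fintype.card (ι → α)) * (avoid E s₂).card :=
              mul_le_mul_of_nonneg_right (hq y) (Nat.cast_nonneg _)
          _ = _ := by ring
      exact le_of_mul_le_mul_right h2 hΩ
    have hsub : avoid E s ⊆ avoid E s₂ := by
      intro ω hω
      simp only [avoid, mem_filter, mem_univ, true_and] at hω ⊢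
      intro z hz
      exact hω z (mem_filter.mp hz).1
    have hnum : ((E y ∩ avoid E s).card : ℝ) ≤ q * (avoid E s₂).card := by
      refine le_trans ?_ hind
      exact_mod_cast card_le_card (inter_subset_inter_left hsub)
    -- lower bound for the denominator
    have hden : ((avoid E s₂).card : ℝ) ≤ 2 * (avoid E s).card := by
      by_cases he : s₁ = ∅
      · have : s₂ = s := by
          apply filter_true_of_mem
          intro z hz
          by_contra hcon
          have : z ∈ s₁ := mem_filter.mpr ⟨hz, hcon⟩
          rw [he] at this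
          simp at this
        rw [this]
        have : (0 : ℝ) ≤ (avoid E s).card := Nat.cast_nonneg _
        linarith
      · have hs₂card : s₂.card ≤ m := by
          have h1 : s₁.card + s₂.card = s.card := by
            rw [add_comm]
            exact card_filter_add_card_filter_not (s := s) (fun z => Disjoint (S y) (S z))
          have h2 : 0 < s₁.card := card_pos.mpr (nonempty_iff_ne_empty.mpr he)
          omega
        have hcover : avoid E s₂ ⊆ avoid E s ∪ s₁.biUnion (fun z => E z ∩ avoid E s₂) := by
          intro ω hω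
          by_cases h : ω ∈ avoid E s
          · exact mem_union_left _ h
          · refine mem_union_right _ ?_
            simp only [avoid, mem_filter, mem_univ, true_and] at h hω
            push Not at h
            obtain ⟨z, hz, hzE⟩ := h
            have hz1 : z ∈ s₁ := by
              refine mem_filter.mpr ⟨hz, ?_⟩
              intro hd
              exact hω z (mem_filter.mpr ⟨hz, hd⟩) hzE
            refine mem_biUnion.mpr ⟨z, hz1, mem_inter.mpr ⟨hzE, ?_⟩⟩
            simp only [avoid, mem_filter, mem_univ, true_and]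
            exact hω
        have h1 : ((avoid E s₂).card : ℝ) ≤
            (avoid E s).card + ∑ z ∈ s₁, ((E z ∩ avoid E s₂).card : ℝ) := by
          have := (card_le_card hcover).trans ((card_union_le _ _).trans
            (Nat.add_le_add_left card_biUnion_le _))
          exact_mod_cast this
        have h2 : ∑ z ∈ s₁, ((E z ∩ avoid E s₂).card : ℝ) ≤
            ∑ _z ∈ s₁, 2 * q * (avoid E s₂).card := by
          apply sum_le_sum
          intro z hz
          refine ih s₂ hs₂card z ?_
          intro hz2
          exact (mem_filter.mp hz).2 (mem_filter.mp hz2).2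
        rw [sum_const, nsmul_eq_mul] at h2
        have h3 : (s₁.card : ℝ) ≤ D := by
          have : s₁ ⊆ univ.filter (fun z => z ≠ y ∧ ¬ Disjoint (S y) (S z)) := by
            intro z hz
            refine mem_filter.mpr ⟨mem_univ _, ?_, (mem_filter.mp hz).2⟩
            rintro rfl
            exact hy (mem_filter.mp hz).1
          exact_mod_cast (card_le_card this).trans (hD y)
        have h4' : (s₁.card : ℝ) * (2 * q * (avoid E s₂).card) ≤
            (1 / 2) * (avoid E s₂).card := by
          have h5 : (s₁.card : ℝ) * (2 * q) ≤ 1 / 2 := by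
            calc (s₁.card : ℝ) * (2 * q) ≤ D * (2 * q) :=
                  mul_le_mul_of_nonneg_right h3 (by linarith)
              _ ≤ 1 / 2 := by linarith
          calc (s₁.card : ℝ) * (2 * q * (avoid E s₂).card)
              = ((s₁.card : ℝ) * (2 * q)) * (avoid E s₂).card := by ring
            _ ≤ (1 / 2) * (avoid E s₂).card :=
              mul_le_mul_of_nonneg_right h5 (Nat.cast_nonneg _)
        linarith
    calc ((E y ∩ avoid E s).card : ℝ) ≤ q * (avoid E s₂).card := hnum
      _ ≤ q * (2 * (avoid E s).card) := mul_le_mul_of_nonneg_left hden hq0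
      _ = 2 * q * (avoid E s).card := by ring

/-- The local lemma: a positive proportion avoids all events. -/
theorem lll {E : Y → Finset (ι → α)} {S : Y → Finset ι}
    (hE : ∀ y, DependsOn (E y) (S y)) {q : ℝ} (hq0 : 0 ≤ q) {D : ℕ} [Nonempty α]
    (hq : ∀ y, ((E y).card : ℝ) ≤ q * Fintype.card (ι → α))
    (hD : ∀ y, (univ.filter (fun z => z ≠ y ∧ ¬ Disjoint (S y) (S z))).card ≤ D)
    (h4 : 4 * q * D ≤ 1) (h2q : 2 * q ≤ 1) :
    (1 - 2 * q) ^ Fintype.card Y * Fintype.card (ι → α) ≤ ((avoid E univ).card : ℝ) := by
  classical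
  have key : ∀ s : Finset Y, (1 - 2 * q) ^ s.card * Fintype.card (ι → α) ≤
      ((avoid E s).card : ℝ) := by
    intro s
    induction s using Finset.induction_on with
    | empty =>
      have h1 : avoid E (∅ : Finset Y) = univ := by simp [avoid]
      rw [h1, card_univ]; simp
    | insert y s hy ih =>
      rw [card_insert_of_notMem hy, pow_succ]
      have h1 := lll_aux hE hq0 hq hD h4 s.card s le_rfl y hy
      have h2 : (avoid E s).card = (avoid E (insert y s)).card + (E y ∩ avoid E s).card := by
        have h3 : avoid E (insert y s) = avoid E s \ E y := by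
          ext ω
          simp only [avoid, mem_filter, mem_univ, true_and, mem_insert, mem_sdiff, forall_eq_or_imp]
          tauto
        rw [h3, inter_comm]
        exact (card_sdiff_add_card_inter _ _).symm
      have h2' : ((avoid E s).card : ℝ) =
          (avoid E (insert y s)).card + (E y ∩ avoid E s).card := by exact_mod_cast h2
      have h3 : (1 - 2 * q) * ((avoid E s).card : ℝ) ≤ (avoid E (insert y s)).card := by
        linarith
      calc (1 - 2 * q) ^ s.card * (1 - 2 * q) * Fintype.card (ι → α)
          = (1 - 2 * q) * ((1 - 2 * q) ^ s.card * Fintype.card (ι → α)) := by ring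
        _ ≤ (1 - 2 * q) * ((avoid E s).card : ℝ) :=
          mul_le_mul_of_nonneg_left ih (by linarith)
        _ ≤ _ := h3
  simpa using key univ

end Pool.Agent.H16.Cube
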