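import Mathlib

/-!
# Bounded differences inequality on finite product spaces
-/

open Finset

namespace Pool.Agent.H16.Cube

/-- The average of a function on a finite type. -/
noncomputable def avg {Ω : Type} [Fintype Ω] (f : Ω → ℝ) : ℝ := (∑ x, f x) / Fintype.card Ω

theorem avg_mul_card {Ω : Type} [Fintype Ω] [Nonempty Ω] (f : Ω → ℝ) :
    avg f * Fintype.card Ω = ∑ x, f x := by
  unfold avg
  have : (0 : ℝ) < Fintype.card Ω := by exact_mod_cast Fintype.card_pos
  field_simp

theorem exp_le_of_abs_le {h c : ℝ} (hc : 0 < c) (hh : |h| ≤ c) :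
    Real.exp h ≤ Real.cosh c + (h / c) * Real.sinh c := by
  have h1 := abs_le.mp hh
  have hconv := convexOn_exp
  have h2 : Real.exp (((c + h) / (2 * c)) * c + ((c - h) / (2 * c)) * (-c)) ≤
      ((c + h) / (2 * c)) * Real.exp c + ((c - h) / (2 * c)) * Real.exp (-c) := by
    have := hconv.2 (Set.mem_univ c) (Set.mem_univ (-c))
      (show 0 ≤ (c + h) / (2 * c) from div_nonneg (by linarith) (by linarith))
      (show 0 ≤ (c - h) / (2 * c) from div_nonneg (by linarith) (by linarith))
      (by field_simp; ring)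
    simpa [smul_eq_mul] using this
  have h3 : ((c + h) / (2 * c)) * c + ((c - h) / (2 * c)) * (-c) = h := by
    field_simp; ring
  rw [h3] at h2
  refine h2.trans (le_of_eq ?_)
  rw [Real.cosh_eq, Real.sinh_eq]
  field_simp
  ring

theorem sum_exp_le {α : Type} [Fintype α] [Nonempty α] (h : α → ℝ) (c : ℝ) (hc : 0 ≤ c)
    (h0 : ∑ a, h a = 0) (hh : ∀ a, |h a| ≤ c) :
    ∑ a, Real.exp (h a) ≤ Fintype.card α * Real.exp (c ^ 2 / 2) := by
  rcases eq_or_lt_of_le hc with hc0 | hc0
  · have : ∀ a, h a = 0 := by
      intro a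
      have := hh a
      rw [← hc0] at this
      exact abs_nonpos_iff.mp this
    simp [this, ← hc0]
  · calc ∑ a, Real.exp (h a) ≤ ∑ a, (Real.cosh c + (h a / c) * Real.sinh c) :=
          sum_le_sum (fun a _ => exp_le_of_abs_le hc0 (hh a))
      _ = Fintype.card α * Real.cosh c + (∑ a, h a) * (Real.sinh c / c) := by
          rw [sum_add_distrib, sum_const, card_univ, nsmul_eq_mul, sum_mul]
          congr 1
          apply sum_congr rfl
          intro a _
          ring
      _ = Fintype.card α * Real.cosh c := by rw [h0]; ring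
      _ ≤ _ := mul_le_mul_of_nonneg_left (Real.cosh_le_exp_half_sq c) (Nat.cast_nonneg _)

theorem mcd_fin {α : Type} [Fintype α] [Nonempty α] (m : ℕ) :
    ∀ (f : (Fin m → α) → ℝ) (c : Fin m → ℝ), (∀ i, 0 ≤ c i) →
      (∀ i ω a, |f (Function.update ω i a) - f ω| ≤ c i) →
      ∑ ω, Real.exp (f ω - avg f) ≤
        Fintype.card (Fin m → α) * Real.exp ((∑ i, c i ^ 2) / 2) := by
  classical
  induction m with
  | zero =>
    intro f c _ _
    have h1 : avg f = f default := by
      unfold avg
      rw [Fintype.sum_unique]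
      simp
    rw [Fintype.sum_unique, h1]
    simp
  | succ m ih =>
    intro f c hc hf
    have hα : (0 : ℝ) < Fintype.card α := by exact_mod_cast Fintype.card_pos
    let g : (Fin m → α) → ℝ := fun x => avg (fun a => f (Fin.cons a x))
    have hsum : ∀ F : (Fin (m + 1) → α) → ℝ, ∑ ω, F ω = ∑ x : Fin m → α, ∑ a : α,
        F (Fin.cons a x) := by
      intro F
      rw [← (Fin.consEquiv (fun _ : Fin (m + 1) => α)).sum_comp, Fintype.sum_prod_type_right]
      rfl
    have hcard : (Fintype.card (Fin (m + 1) → α) : ℝ) =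
        Fintype.card α * Fintype.card (Fin m → α) := by
      rw [Fintype.card_fun, Fintype.card_fun, Fintype.card_fin, Fintype.card_fin, pow_succ]
      push_cast
      ring
    have hgavg : avg g = avg f := by
      unfold avg
      rw [hsum, hcard]
      simp only [g, avg]
      rw [← sum_div]
      field_simp
    have hgL : ∀ (i : Fin m) (x : Fin m → α) (a : α),
        |g (Function.update x i a) - g x| ≤ c i.succ := by
      intro i x a
      have h1 : g (Function.update x i a) - g x =
          (∑ b, (f (Function.update (Fin.cons b x : Fin (m + 1) → α) i.succ a) -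
            f (Fin.cons b x))) / Fintype.card α := by
        simp only [g, avg]
        rw [← sub_div, ← sum_sub_distrib]
        congr 1
        apply sum_congr rfl
        intro b _
        rw [Fin.cons_update]
      rw [h1, abs_div, abs_of_pos hα, div_le_iff₀ hα]
      calc |∑ b, (f (Function.update (Fin.cons b x : Fin (m + 1) → α) i.succ a) -
            f (Fin.cons b x))|
          ≤ ∑ b, |f (Function.update (Fin.cons b x : Fin (m + 1) → α) i.succ a) -
            f (Fin.cons b x)| := abs_sum_le_sum_abs _ _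
        _ ≤ ∑ _b : α, c i.succ := sum_le_sum (fun b _ => hf _ _ _)
        _ = c i.succ * Fintype.card α := by
            rw [sum_const, card_univ, nsmul_eq_mul]; ring
    have hinner : ∀ x : Fin m → α, ∑ a, Real.exp (f (Fin.cons a x) - g x) ≤
        Fintype.card α * Real.exp (c 0 ^ 2 / 2) := by
      intro x
      apply sum_exp_le _ _ (hc 0)
      · rw [sum_sub_distrib, sum_const, card_univ, nsmul_eq_mul]
        have := avg_mul_card (fun a => f (Fin.cons a x))
        simp only [g]
        linarith
      · intro a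
        have h1 : f (Fin.cons a x) - g x =
            (∑ b, (f (Fin.cons a x) - f (Fin.cons b x))) / Fintype.card α := by
          simp only [g, avg]
          rw [sum_sub_distrib, sum_const, card_univ, nsmul_eq_mul]
          field_simp
        rw [h1, abs_div, abs_of_pos hα, div_le_iff₀ hα]
        calc |∑ b, (f (Fin.cons a x) - f (Fin.cons b x))|
            ≤ ∑ b, |f (Fin.cons a x) - f (Fin.cons b x)| := abs_sum_le_sum_abs _ _
          _ ≤ ∑ _b : α, c 0 := by
              apply sum_le_sum
              intro b _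
              have h2 : (Fin.cons a x : Fin (m + 1) → α) =
                  Function.update (Fin.cons b x : Fin (m + 1) → α) 0 a := by
                rw [Fin.update_cons_zero]
              rw [h2]
              exact hf _ _ _
          _ = c 0 * Fintype.card α := by
              rw [sum_const, card_univ, nsmul_eq_mul]; ring
    have hih := ih g (fun i => c i.succ) (fun i => hc _) hgL
    rw [hsum]
    calc ∑ x : Fin m → α, ∑ a : α, Real.exp (f (Fin.cons a x) - avg f)
        = ∑ x : Fin m → α, (∑ a : α, Real.exp (f (Fin.cons a x) - g x)) *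
            Real.exp (g x - avg g) := by
          apply sum_congr rfl
          intro x _
          rw [sum_mul]
          apply sum_congr rfl
          intro a _
          rw [← Real.exp_add, hgavg]
          congr 1
          ring
      _ ≤ ∑ x : Fin m → α, (Fintype.card α * Real.exp (c 0 ^ 2 / 2)) *
            Real.exp (g x - avg g) :=
          sum_le_sum (fun x _ => mul_le_mul_of_nonneg_right (hinner x) (Real.exp_pos _).le)
      _ = (Fintype.card α * Real.exp (c 0 ^ 2 / 2)) * ∑ x, Real.exp (g x - avg g) := by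
          rw [mul_sum]
      _ ≤ (Fintype.card α * Real.exp (c 0 ^ 2 / 2)) *
            (Fintype.card (Fin m → α) * Real.exp ((∑ i : Fin m, c i.succ ^ 2) / 2)) :=
          mul_le_mul_of_nonneg_left hih (by positivity)
      _ = _ := by
          rw [hcard, Fin.sum_univ_succ, add_div, Real.exp_add]
          ring

theorem mcd {ι α : Type} [Fintype ι] [DecidableEq ι] [Fintype α] [Nonempty α]
    (f : (ι → α) → ℝ) (c : ι → ℝ) (hc : ∀ i, 0 ≤ c i)
    (hf : ∀ i ω a, |f (Function.update ω i a) - f ω| ≤ c i) :
    ∑ ω, Real.exp (f ω - avg f) ≤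
      Fintype.card (ι → α) * Real.exp ((∑ i, c i ^ 2) / 2) := by
  classical
  let e := Fintype.equivFin ι
  let E : (Fin (Fintype.card ι) → α) ≃ (ι → α) := Equiv.arrowCongr e.symm (Equiv.refl α)
  have hE : ∀ x i, E x i = x (e i) := by intro x i; simp [E]
  have h := mcd_fin (Fintype.card ι) (fun x => f (E x)) (fun i => c (e.symm i))
    (fun i => hc _) (by
      intro i x a
      have h1 : E (Function.update x i a) = Function.update (E x) (e.symm i) a := by
        funext j
        rw [hE]
        by_cases hj : j = e.symm i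
        · subst hj; simp
        · have : e j ≠ i := by
            intro h; exact hj (by rw [← h]; simp)
          rw [Function.update_of_ne this, Function.update_of_ne hj, hE]
      rw [h1]
      exact hf _ _ _)
  have havg : avg (fun x => f (E x)) = avg f := by
    unfold avg
    rw [E.sum_comp, Fintype.card_congr E]
  have hs : ∑ i : Fin (Fintype.card ι), c (e.symm i) ^ 2 = ∑ i, c i ^ 2 :=
    e.symm.sum_comp (fun i => c i ^ 2)
  rw [havg, hs] at h
  have h2 : ∑ x, Real.exp (f (E x) - avg f) = ∑ ω, Real.exp (f ω - avg f) :=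
    E.sum_comp (fun ω => Real.exp (f ω - avg f))
  rw [h2, Fintype.card_congr E] at h
  exact h

/-- Upper tail. -/
theorem mcd_upper {ι α : Type} [Fintype ι] [DecidableEq ι] [Fintype α] [Nonempty α]
    (f : (ι → α) → ℝ) (c : ι → ℝ) (hc : ∀ i, 0 ≤ c i)
    (hf : ∀ i ω a, |f (Function.update ω i a) - f ω| ≤ c i) (t V : ℝ) (ht : 0 ≤ t)
    (hV : 0 < V) (hcV : ∑ i, c i ^ 2 ≤ V) (A : Finset (ι → α))
    (hA : ∀ ω ∈ A, avg f + t ≤ f ω) :
    (A.card : ℝ) ≤ Real.exp (-(t ^ 2 / (2 * V))) * Fintype.card (ι → α) := by
  classical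
  set l : ℝ := t / V with hl
  have hl0 : 0 ≤ l := div_nonneg ht hV.le
  have h := mcd (fun ω => l * f ω) (fun i => l * c i) (fun i => mul_nonneg hl0 (hc i)) (by
    intro i ω a
    rw [← mul_sub, abs_mul, abs_of_nonneg hl0]
    exact mul_le_mul_of_nonneg_left (hf i ω a) hl0)
  have havg : avg (fun ω => l * f ω) = l * avg f := by
    unfold avg
    rw [← mul_sum, mul_div_assoc]
  rw [havg] at h
  have h1 : (A.card : ℝ) * Real.exp (l * t) ≤ ∑ ω, Real.exp (l * f ω - l * avg f) := by
    calc (A.card : ℝ) * Real.exp (l * t) = ∑ _ω ∈ A, Real.exp (l * t) := by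
          rw [sum_const, nsmul_eq_mul]
      _ ≤ ∑ ω ∈ A, Real.exp (l * f ω - l * avg f) := by
          apply sum_le_sum
          intro ω hω
          apply Real.exp_le_exp.mpr
          rw [← mul_sub]
          exact mul_le_mul_of_nonneg_left (by linarith [hA ω hω]) hl0
      _ ≤ _ := sum_le_sum_of_subset_of_nonneg (subset_univ _)
          (fun _ _ _ => (Real.exp_pos _).le)
  have h2 : (∑ i, (l * c i) ^ 2) / 2 ≤ l ^ 2 * V / 2 := by
    have : ∑ i, (l * c i) ^ 2 = l ^ 2 * ∑ i, c i ^ 2 := by
      rw [mul_sum]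
      apply sum_congr rfl
      intro i _
      ring
    rw [this]
    have := mul_le_mul_of_nonneg_left hcV (sq_nonneg l)
    linarith
  have h3 : (A.card : ℝ) * Real.exp (l * t) ≤
      Fintype.card (ι → α) * Real.exp (l ^ 2 * V / 2) :=
    h1.trans (h.trans (mul_le_mul_of_nonneg_left (Real.exp_le_exp.mpr h2) (Nat.cast_nonneg _)))
  have h4 : l ^ 2 * V / 2 = -(t ^ 2 / (2 * V)) + l * t := by
    rw [hl]; field_simp; ring
  rw [h4, Real.exp_add, ← mul_assoc] at h3
  have := le_of_mul_le_mul_right h3 (Real.exp_pos (l * t))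
  linarith

/-- Lower tail. -/
theorem mcd_lower {ι α : Type} [Fintype ι] [DecidableEq ι] [Fintype α] [Nonempty α]
    (f : (ι → α) → ℝ) (c : ι → ℝ) (hc : ∀ i, 0 ≤ c i)
    (hf : ∀ i ω a, |f (Function.update ω i a) - f ω| ≤ c i) (t V : ℝ) (ht : 0 ≤ t)
    (hV : 0 < V) (hcV : ∑ i, c i ^ 2 ≤ V) (A : Finset (ι → α))
    (hA : ∀ ω ∈ A, f ω ≤ avg f - t) :
    (A.card : ℝ) ≤ Real.exp (-(t ^ 2 / (2 * V))) * Fintype.card (ι → α) := by
  have havg : avg (fun ω => - f ω) = - avg f := by
    unfold avg
    rw [sum_neg_distrib, neg_div]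
  refine mcd_upper (fun ω => - f ω) c hc ?_ t V ht hV hcV A ?_
  · intro i ω a
    rw [neg_sub_neg, abs_sub_comm]
    exact hf i ω a
  · intro ω hω
    rw [havg]
    linarith [hA ω hω]

end Pool.Agent.H16.Cube
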