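import Mathlib

/-!
# Random bijections
-/

open Finset

namespace Pool.Agent.H16.Cube

variable {Q V : Type} [Fintype Q] [DecidableEq Q] [Fintype V] [DecidableEq V]

/-- The bijections which map `T` into `D`. -/
def mapsInto (T : Finset Q) (D : Finset V) : Finset (Q ≃ V) :=
  univ.filter (fun ψ => ∀ a ∈ T, ψ a ∈ D)

theorem mapsInto_insert_eq (T : Finset Q) (D : Finset V) (a b : Q) (ha : a ∉ T) (hb : b ∉ T) :
    (mapsInto (insert a T) D).card = (mapsInto (insert b T) D).card := by
  classical
  have key : ∀ a b : Q, a ∉ T → b ∉ T → ∀ ψ ∈ mapsInto (insert a T) D,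
      (Equiv.swap a b).trans ψ ∈ mapsInto (insert b T) D := by
    intro a b ha hb ψ hψ
    simp only [mapsInto, mem_filter, mem_univ, true_and, mem_insert, forall_eq_or_imp,
      Equiv.trans_apply, Equiv.swap_apply_right] at hψ ⊢
    refine ⟨hψ.1, fun x hx => ?_⟩
    rw [Equiv.swap_apply_of_ne_of_ne (by rintro rfl; exact ha hx) (by rintro rfl; exact hb hx)]
    exact hψ.2 x hx
  refine card_bij' (fun ψ _ => (Equiv.swap a b).trans ψ) (fun ψ _ => (Equiv.swap a b).trans ψ)
    (key a b ha hb) ?_ ?_ ?_
  · intro ψ hψ
    have := key b a hb ha ψ hψ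
    rwa [Equiv.swap_comm] at this
  · intro ψ _
    ext x
    simp
  · intro ψ _
    ext x
    simp

theorem card_free (T : Finset Q) (D : Finset V) (ψ : Q ≃ V) (hψ : ψ ∈ mapsInto T D) :
    (univ.filter (fun a => a ∉ T ∧ ψ a ∈ D)).card + T.card = D.card := by
  classical
  have h1 : (univ.filter (fun a => ψ a ∈ D)).card = D.card := by
    have h2 : (univ.filter (fun a => ψ a ∈ D)) = D.map ψ.symm.toEmbedding := by
      ext a
      simp only [mem_filter, mem_univ, true_and, mem_map, Equiv.coe_toEmbedding]
      constructor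
      · intro h; exact ⟨ψ a, h, by simp⟩
      · rintro ⟨d, hd, rfl⟩; simpa using hd
    rw [h2, card_map]
  have h2 : T ⊆ univ.filter (fun a => ψ a ∈ D) := by
    intro a ha
    simp only [mapsInto, mem_filter, mem_univ, true_and] at hψ ⊢
    exact hψ a ha
  have h3 : (univ.filter (fun a => a ∉ T ∧ ψ a ∈ D)) = (univ.filter (fun a => ψ a ∈ D)) \ T := by
    ext a
    simp only [mem_filter, mem_univ, true_and, mem_sdiff]
    tauto
  rw [h3, card_sdiff_of_subset h2, h1]
  have := card_le_card h2
  omega

theorem mapsInto_step (T : Finset Q) (D : Finset V) (a : Q) (ha : a ∉ T) :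
    (mapsInto (insert a T) D).card * (Fintype.card Q - T.card) =
      (D.card - T.card) * (mapsInto T D).card := by
  classical
  have h1 : ∑ b ∈ Tᶜ, (mapsInto (insert b T) D).card =
      (mapsInto (insert a T) D).card * (Fintype.card Q - T.card) := by
    rw [sum_congr rfl (g := fun _ => (mapsInto (insert a T) D).card)]
    · rw [sum_const, card_compl, smul_eq_mul, mul_comm]
    · intro b hb
      exact mapsInto_insert_eq T D b a (mem_compl.mp hb) ha
  have h2 : ∑ b ∈ Tᶜ, (mapsInto (insert b T) D).card =
      ∑ ψ ∈ mapsInto T D, (univ.filter (fun b => b ∉ T ∧ ψ b ∈ D)).card := by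
    have h3 : ∀ b ∈ Tᶜ, mapsInto (insert b T) D = (mapsInto T D).filter (fun ψ => ψ b ∈ D) := by
      intro b _
      ext ψ
      simp only [mapsInto, mem_filter, mem_univ, true_and, mem_insert, forall_eq_or_imp]
      tauto
    rw [sum_congr rfl (fun b hb => by rw [h3 b hb])]
    simp only [card_filter]
    rw [sum_comm]
    apply sum_congr rfl
    intro ψ _
    rw [← sum_filter, ← sum_filter]
    apply sum_congr _ (fun _ _ => rfl)
    ext b
    simp only [mem_filter, mem_univ, true_and, mem_compl]
  rw [← h1, h2]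
  have h4 : ∀ ψ ∈ mapsInto T D, (univ.filter (fun b => b ∉ T ∧ ψ b ∈ D)).card =
      D.card - T.card := by
    intro ψ hψ
    have := card_free T D ψ hψ
    omega
  rw [sum_congr rfl h4, sum_const, smul_eq_mul, mul_comm]

theorem mapsInto_card_le (hQV : Fintype.card Q = Fintype.card V) (D : Finset V) (T : Finset Q) :
    (mapsInto T D).card * Fintype.card Q ^ T.card ≤ D.card ^ T.card * Fintype.card (Q ≃ V) := by
  classical
  induction T using Finset.induction_on with
  | empty =>
    simp only [card_empty, pow_zero, mul_one, one_mul]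
    exact card_le_univ _
  | insert a T ha ih =>
    rw [card_insert_of_notMem ha]
    have hD : D.card ≤ Fintype.card Q := by rw [hQV]; exact card_le_univ D
    have hT : T.card < Fintype.card Q := by
      have : (insert a T).card ≤ Fintype.card Q := card_le_univ _
      rw [card_insert_of_notMem ha] at this
      omega
    have hstep := mapsInto_step T D a ha
    have h1 : (mapsInto (insert a T) D).card * Fintype.card Q ≤
        D.card * (mapsInto T D).card := by
      have hpos : 0 < Fintype.card Q - T.card := by omega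
      apply Nat.le_of_mul_le_mul_right _ hpos
      calc (mapsInto (insert a T) D).card * Fintype.card Q * (Fintype.card Q - T.card)
          = Fintype.card Q * ((mapsInto (insert a T) D).card * (Fintype.card Q - T.card)) := by
            ring
        _ = Fintype.card Q * ((D.card - T.card) * (mapsInto T D).card) := by rw [hstep]
        _ = (Fintype.card Q * (D.card - T.card)) * (mapsInto T D).card := by ring
        _ ≤ (D.card * (Fintype.card Q - T.card)) * (mapsInto T D).card := by
            apply Nat.mul_le_mul_right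
            rcases Nat.le_total D.card T.card with h | h
            · rw [Nat.sub_eq_zero_of_le h]; simp
            · obtain ⟨u, hu⟩ := Nat.exists_eq_add_of_le h
              obtain ⟨w, hw⟩ := Nat.exists_eq_add_of_le hD
              rw [hw, hu]
              have e1 : T.card + u - T.card = u := by omega
              have e2 : T.card + u + w - T.card = u + w := by omega
              rw [e1, e2]
              nlinarith
        _ = D.card * (mapsInto T D).card * (Fintype.card Q - T.card) := by ring
    calc (mapsInto (insert a T) D).card * Fintype.card Q ^ (T.card + 1)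
        = ((mapsInto (insert a T) D).card * Fintype.card Q) * Fintype.card Q ^ T.card := by
          rw [pow_succ]; ring
      _ ≤ (D.card * (mapsInto T D).card) * Fintype.card Q ^ T.card :=
          Nat.mul_le_mul_right _ h1
      _ = D.card * ((mapsInto T D).card * Fintype.card Q ^ T.card) := by ring
      _ ≤ D.card * (D.card ^ T.card * Fintype.card (Q ≃ V)) := Nat.mul_le_mul_left _ ih
      _ = _ := by rw [pow_succ]; ring

/-- There is a bijection which maps fewer than `t` elements of each `B j` into `D j`. -/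
theorem exists_bij (hQV : Fintype.card Q = Fintype.card V) (hQ : 0 < Fintype.card Q)
    {J : Type} [Fintype J] (B : J → Finset Q) (D : J → Finset V) (L t : ℕ) (c : ℝ)
    (hc : 0 ≤ c) (ht : 1 ≤ t) (hB : ∀ j, (B j).card ≤ L)
    (hD : ∀ j, ((D j).card : ℝ) ≤ c * Fintype.card Q)
    (hsmall : (Fintype.card J : ℝ) * (L * c * Real.exp 1 / t) ^ t < 1) :
    ∃ ψ : Q ≃ V, ∀ j, ((B j).filter (fun a => ψ a ∈ D j)).card < t := by
  classical
  by_contra hcon
  push Not at hcon
  have hN : (0 : ℝ) < Fintype.card Q := by exact_mod_cast hQ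
  have hcover : (univ : Finset (Q ≃ V)) ⊆
      (univ : Finset J).biUnion (fun j => ((B j).powersetCard t).biUnion
        (fun T => mapsInto T (D j))) := by
    intro ψ _
    obtain ⟨j, hj⟩ := hcon ψ
    obtain ⟨T, hT, hTc⟩ := exists_subset_card_eq hj
    refine mem_biUnion.mpr ⟨j, mem_univ _, mem_biUnion.mpr ⟨T, ?_, ?_⟩⟩
    · exact mem_powersetCard.mpr ⟨hT.trans (filter_subset _ _), hTc⟩
    · simp only [mapsInto, mem_filter, mem_univ, true_and]
      intro a ha
      exact (mem_filter.mp (hT ha)).2
  have hE : (0 : ℝ) < Fintype.card (Q ≃ V) := by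
    have : Nonempty (Q ≃ V) := ⟨Fintype.equivOfCardEq hQV⟩
    exact_mod_cast Fintype.card_pos
  have h1 : (Fintype.card (Q ≃ V) : ℝ) ≤
      ∑ j, ∑ T ∈ (B j).powersetCard t, ((mapsInto T (D j)).card : ℝ) := by
    have := (card_le_card hcover).trans (card_biUnion_le.trans
      (sum_le_sum (fun j _ => card_biUnion_le)))
    rw [card_univ] at this
    exact_mod_cast this
  have h2 : ∀ j, ∀ T ∈ (B j).powersetCard t, ((mapsInto T (D j)).card : ℝ) ≤
      c ^ t * Fintype.card (Q ≃ V) := by
    intro j T hT
    have hTc := (mem_powersetCard.mp hT).2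
    have h3 := mapsInto_card_le hQV (D j) T
    rw [hTc] at h3
    have h3' : ((mapsInto T (D j)).card : ℝ) * (Fintype.card Q : ℝ) ^ t ≤
        ((D j).card : ℝ) ^ t * Fintype.card (Q ≃ V) := by exact_mod_cast h3
    have h4 : ((D j).card : ℝ) ^ t ≤ c ^ t * (Fintype.card Q : ℝ) ^ t := by
      rw [← mul_pow]
      exact pow_le_pow_left₀ (Nat.cast_nonneg _) (hD j) t
    have h5 : ((mapsInto T (D j)).card : ℝ) * (Fintype.card Q : ℝ) ^ t ≤
        (c ^ t * Fintype.card (Q ≃ V)) * (Fintype.card Q : ℝ) ^ t := by
      calc _ ≤ ((D j).card : ℝ) ^ t * Fintype.card (Q ≃ V) := h3'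
        _ ≤ (c ^ t * (Fintype.card Q : ℝ) ^ t) * Fintype.card (Q ≃ V) :=
          mul_le_mul_of_nonneg_right h4 hE.le
        _ = _ := by ring
    exact le_of_mul_le_mul_right h5 (pow_pos hN t)
  have ht0 : (0 : ℝ) < t := by exact_mod_cast ht
  have h3 : ∀ j, ∑ T ∈ (B j).powersetCard t, ((mapsInto T (D j)).card : ℝ) ≤
      (L * c * Real.exp 1 / t) ^ t * Fintype.card (Q ≃ V) := by
    intro j
    calc ∑ T ∈ (B j).powersetCard t, ((mapsInto T (D j)).card : ℝ)
        ≤ ∑ _T ∈ (B j).powersetCard t, c ^ t * Fintype.card (Q ≃ V) :=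
          sum_le_sum (h2 j)
      _ = ((B j).card.choose t : ℝ) * (c ^ t * Fintype.card (Q ≃ V)) := by
          rw [sum_const, card_powersetCard, nsmul_eq_mul]
      _ ≤ ((L : ℝ) ^ t / t.factorial) * (c ^ t * Fintype.card (Q ≃ V)) := by
          apply mul_le_mul_of_nonneg_right _ (by positivity)
          calc ((B j).card.choose t : ℝ) ≤ (L.choose t : ℝ) := by
                exact_mod_cast Nat.choose_le_choose t (hB j)
            _ ≤ (L : ℝ) ^ t / t.factorial := Nat.choose_le_pow_div t L
      _ ≤ ((L : ℝ) ^ t * (Real.exp 1 / t) ^ t) * (c ^ t * Fintype.card (Q ≃ V)) := by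
          apply mul_le_mul_of_nonneg_right _ (by positivity)
          rw [div_eq_mul_inv]
          apply mul_le_mul_of_nonneg_left _ (by positivity)
          have h4 := Real.pow_div_factorial_le_exp (t : ℝ) ht0.le t
          rw [div_pow, ← Real.exp_nat_mul, mul_one]
          rw [div_le_iff₀ (by positivity)] at h4
          rw [inv_le_iff_one_le_mul₀ (by positivity), div_mul_eq_mul_div,
            le_div_iff₀ (by positivity), one_mul]
          exact h4
      _ = _ := by
          rw [div_pow, div_pow, mul_pow, mul_pow]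
          field_simp
  have h4 : (Fintype.card (Q ≃ V) : ℝ) ≤
      (Fintype.card J : ℝ) * ((L * c * Real.exp 1 / t) ^ t * Fintype.card (Q ≃ V)) := by
    calc _ ≤ _ := h1
      _ ≤ ∑ _j : J, (L * c * Real.exp 1 / t) ^ t * Fintype.card (Q ≃ V) :=
        sum_le_sum (fun j _ => h3 j)
      _ = _ := by rw [sum_const, card_univ, nsmul_eq_mul]
  rw [← mul_assoc] at h4
  have h5 : (Fintype.card J : ℝ) * (L * c * Real.exp 1 / t) ^ t * Fintype.card (Q ≃ V) <
      1 * Fintype.card (Q ≃ V) := mul_lt_mul_of_pos_right hsmall hE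
  linarith

end Pool.Agent.H16.Cube
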