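import Pool.Agent.H16.Cube.Embed
import Pool.Agent.H16.Cube.Code
import Pool.Agent.H16.Cube.Perm

/-!
# The numerical estimates
-/

open Finset

namespace Pool.Agent.H16.Cube

theorem exp_ge_pow {x : ℝ} (hx : 0 ≤ x) (m : ℕ) : x ^ m / m.factorial ≤ Real.exp x :=
  Real.pow_div_factorial_le_exp x hx m

/-- The basic quantity `u = n ^ (1/16)`. -/
theorem exists_u (n : ℕ) (hn : 5 ^ 16 ≤ n) : ∃ u : ℝ, 5 ≤ u ∧ u ^ 16 = n ∧
    Real.log n = 16 * Real.log u ∧ Real.log n ≤ 16 * u ∧ 1 ≤ Real.log n := by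
  have hn0 : (0 : ℝ) < n := by
    have : 0 < n := lt_of_lt_of_le (by norm_num) hn
    exact_mod_cast this
  set u : ℝ := Real.exp (Real.log n / 16) with hu
  have hu16 : u ^ 16 = n := by
    rw [hu, ← Real.exp_nat_mul]
    have : ((16 : ℕ) : ℝ) * (Real.log n / 16) = Real.log n := by push_cast; ring
    rw [this, Real.exp_log hn0]
  have hupos : 0 < u := Real.exp_pos _
  have hu5 : 5 ≤ u := by
    by_contra h
    push Not at h
    have h1 : u ^ 16 < 5 ^ 16 := pow_lt_pow_left₀ h hupos.le (by norm_num)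
    rw [hu16] at h1
    have : ((5 ^ 16 : ℕ) : ℝ) ≤ n := by exact_mod_cast hn
    push_cast at this
    linarith
  have hlog : Real.log n = 16 * Real.log u := by
    rw [← hu16, Real.log_pow]; push_cast; ring
  refine ⟨u, hu5, hu16, hlog, ?_, ?_⟩
  · rw [hlog]
    have := Real.log_le_sub_one_of_pos hupos
    linarith
  · rw [hlog]
    have h1 : 1 ≤ Real.log u * 16 := by
      have h2 : Real.exp 1 ≤ u := by
        have := Real.exp_one_lt_d9
        linarith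
      have h3 := Real.log_le_log (Real.exp_pos 1) h2
      rw [Real.log_exp] at h3
      linarith
    linarith

theorem two_pow_big (n : ℕ) (hn : 5 ^ 16 ≤ n) : 16 * (n : ℝ) ^ 12 < 2 ^ n ∧
    73728 * (n : ℝ) ^ 10 < 2 ^ n := by
  have hn0 : (5 : ℝ) ^ 16 ≤ n := by exact_mod_cast hn
  have hnpos : (0 : ℝ) < n := lt_of_lt_of_le (by norm_num) hn0
  have h2 : (2 : ℝ) ^ n = Real.exp (n * Real.log 2) := by
    rw [mul_comm, Real.exp_mul, Real.exp_log (by norm_num), Real.rpow_natCast]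
  have hl : (1 / 2 : ℝ) ≤ Real.log 2 := by
    have := Real.log_two_gt_d9
    linarith
  have h3 : (n : ℝ) / 2 ≤ n * Real.log 2 := by nlinarith
  have h4 : ((n : ℝ) / 2) ^ 14 / (Nat.factorial 14) ≤ 2 ^ n := by
    rw [h2]
    exact (exp_ge_pow (by positivity) 14).trans (Real.exp_le_exp.mpr h3)
  have h5 : ((n : ℝ) / 2) ^ 14 / (Nat.factorial 14) =
      (n : ℝ) ^ 12 * ((n : ℝ) ^ 2 / (2 ^ 14 * Nat.factorial 14)) := by
    rw [div_pow]; field_simp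
  have hfac : (Nat.factorial 14 : ℝ) = 87178291200 := by norm_num [Nat.factorial]
  have h6 : (16 : ℝ) < (n : ℝ) ^ 2 / (2 ^ 14 * Nat.factorial 14) := by
    rw [hfac, lt_div_iff₀ (by norm_num)]
    nlinarith
  have h7 : 16 * (n : ℝ) ^ 12 < 2 ^ n := by
    calc 16 * (n : ℝ) ^ 12 = (n : ℝ) ^ 12 * 16 := by ring
      _ < (n : ℝ) ^ 12 * ((n : ℝ) ^ 2 / (2 ^ 14 * Nat.factorial 14)) :=
        mul_lt_mul_of_pos_left h6 (by positivity)
      _ = _ := h5.symm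
      _ ≤ _ := h4
  refine ⟨h7, lt_of_le_of_lt ?_ h7⟩
  have : (n : ℝ) ^ 12 = (n : ℝ) ^ 10 * (n : ℝ) ^ 2 := by ring
  rw [this]
  have h8 : (73728 : ℝ) ≤ 16 * (n : ℝ) ^ 2 := by nlinarith
  calc 73728 * (n : ℝ) ^ 10 ≤ (16 * (n : ℝ) ^ 2) * (n : ℝ) ^ 10 :=
        mul_le_mul_of_nonneg_right h8 (by positivity)
    _ = _ := by ring

/-- The number of shifts. -/
theorem exists_l (n : ℕ) (hn : 5 ^ 16 ≤ n) :
    ∃ l : ℕ, 4 * l ≤ n ∧ n ^ 3 ≤ 2 ^ l ∧ 2 ^ l ≤ 2 * n ^ 3 := by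
  have hn1 : 1 < n ^ 3 := by
    have h1 : 1 < n := lt_of_lt_of_le (by norm_num) hn
    exact Nat.one_lt_pow (by norm_num) h1
  refine ⟨Nat.clog 2 (n ^ 3), ?_, Nat.le_pow_clog (by norm_num) _, ?_⟩
  · have h2 : 2 ^ Nat.clog 2 (n ^ 3) ≤ 2 * n ^ 3 := by
      have h3 : 0 < Nat.clog 2 (n ^ 3) := Nat.clog_pos (by norm_num) hn1
      have h4 := Nat.pow_pred_clog_lt_self (b := 2) (by norm_num) hn1
      have h5 : 2 ^ Nat.clog 2 (n ^ 3) = 2 * 2 ^ (Nat.clog 2 (n ^ 3)).pred := by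
        rw [← pow_succ', show (Nat.clog 2 (n ^ 3)).pred + 1 = Nat.clog 2 (n ^ 3) from
          Nat.succ_pred_eq_of_pos h3]
      omega
    by_contra hcon
    push Not at hcon
    have h3 : 2 ^ n ≤ 2 ^ (4 * Nat.clog 2 (n ^ 3)) :=
      Nat.pow_le_pow_right (by norm_num) hcon.le
    have h4 : 2 ^ (4 * Nat.clog 2 (n ^ 3)) ≤ (2 * n ^ 3) ^ 4 := by
      rw [mul_comm, pow_mul]
      exact Nat.pow_le_pow_left h2 4
    have h5 : (2 * n ^ 3) ^ 4 = 16 * n ^ 12 := by ring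
    have h6 : (2 : ℝ) ^ n ≤ 16 * (n : ℝ) ^ 12 := by
      have : 2 ^ n ≤ 16 * n ^ 12 := by rw [← h5]; exact h3.trans h4
      exact_mod_cast this
    linarith [(two_pow_big n hn).1]
  · have h3 : 0 < Nat.clog 2 (n ^ 3) := Nat.clog_pos (by norm_num) hn1
    have h4 := Nat.pow_pred_clog_lt_self (b := 2) (by norm_num) hn1
    have h5 : 2 ^ Nat.clog 2 (n ^ 3) = 2 * 2 ^ (Nat.clog 2 (n ^ 3)).pred := by
      rw [← pow_succ', show (Nat.clog 2 (n ^ 3)).pred + 1 = Nat.clog 2 (n ^ 3) from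
        Nat.succ_pred_eq_of_pos h3]
    omega

theorem one_sub_ge {x : ℝ} (h0 : 0 ≤ x) (h1 : x ≤ 1 / 2) : Real.exp (-(2 * x)) ≤ 1 - x := by
  have h2 : Real.exp (-(2 * x)) = (Real.exp (2 * x))⁻¹ := Real.exp_neg _
  rw [h2, inv_le_comm₀ (Real.exp_pos _) (by linarith)]
  have h3 : (1 - x)⁻¹ ≤ 1 + 2 * x := by
    rw [inv_le_iff_one_le_mul₀ (by linarith)]
    nlinarith
  have h4 := Real.add_one_le_exp (2 * x)
  linarith

end Pool.Agent.H16.Cube
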