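import Pool.Agent.H16.Cube.Lll
import Pool.Agent.H16.Cube.McD

/-!
# Random shifts in block systems
-/

open Finset

set_option linter.unusedSectionVars false

namespace Pool.Agent.H16.Cube

/-- The structure of the cube used in the argument: neighbours, and blocks on which the set `R`
of shifts acts simply transitively; the neighbours of a vertex are in different blocks. -/
structure BC (Q R : Type) [Fintype Q] [DecidableEq Q] [Fintype R] (n : ℕ) where
  O : Finset Q
  nbr : Fin n → Q → Q
  nbr_inv : ∀ i x, nbr i (nbr i x) = x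
  nbr_O : ∀ i x, x ∈ O ↔ nbr i x ∉ O
  sh : R → Q → Q
  sh_inj : ∀ r, Function.Injective (sh r)
  sh_O : ∀ r x, sh r x ∈ O ↔ x ∈ O
  pr : Q → Q
  pr_sh : ∀ r x, pr (sh r x) = pr x
  pr_eq : ∀ x x', pr x = pr x' → ∃ r, x' = sh r x
  pr_nbr : ∀ x i j, i ≠ j → pr (nbr i x) ≠ pr (nbr j x)

variable {Q R : Type} [Fintype Q] [DecidableEq Q] [Fintype R] [DecidableEq R] {n : ℕ}

namespace BC

variable (K : BC Q R n)

/-- The random placement. -/
def g (ρ : Q → R) (x : Q) : Q := K.sh (ρ (K.pr x)) x

theorem pr_g (ρ : Q → R) (x : Q) : K.pr (K.g ρ x) = K.pr x := K.pr_sh _ _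

theorem g_inj (ρ : Q → R) : Function.Injective (K.g ρ) := by
  intro x x' h
  have h1 : K.pr x = K.pr x' := by rw [← K.pr_g ρ x, ← K.pr_g ρ x', h]
  unfold g at h
  rw [h1] at h
  exact K.sh_inj _ h

theorem g_O (ρ : Q → R) (x : Q) : K.g ρ x ∈ K.O ↔ x ∈ K.O := K.sh_O _ _

/-- The blocks of the neighbours of `y`. -/
def img (y : Q) : Finset Q := univ.image (fun i => K.pr (K.nbr i y))

theorem card_img_le (y : Q) : (K.img y).card ≤ n := by
  have := card_image_le (s := (univ : Finset (Fin n))) (f := fun i => K.pr (K.nbr i y))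
  simpa [img] using this

theorem mem_img {y b : Q} : b ∈ K.img y ↔ ∃ i, K.pr (K.nbr i y) = b := by
  simp [img]

theorem g_update_of_not_mem {ρ : Q → R} {b : Q} {r : R} {y : Q} (hb : b ∉ K.img y) (i : Fin n) :
    K.g (Function.update ρ b r) (K.nbr i y) = K.g ρ (K.nbr i y) := by
  unfold g
  rw [Function.update_of_ne]
  intro h
  exact hb (K.mem_img.mpr ⟨i, h⟩)

theorem g_congr {ρ ρ' : Q → R} {y : Q} (h : ∀ b ∈ K.img y, ρ b = ρ' b) (i : Fin n) :
    K.g ρ (K.nbr i y) = K.g ρ' (K.nbr i y) := by
  unfold g
  rw [h _ (K.mem_img.mpr ⟨i, rfl⟩)]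

theorem card_fiber_le (b : Q) :
    (univ.filter (fun x => K.pr x = b)).card ≤ Fintype.card R := by
  classical
  by_cases h : ∃ x₀, K.pr x₀ = b
  · obtain ⟨x₀, hx₀⟩ := h
    have : univ.filter (fun x => K.pr x = b) ⊆ univ.image (fun r => K.sh r x₀) := by
      intro x hx
      obtain ⟨r, hr⟩ := K.pr_eq x₀ x (hx₀.trans (mem_filter.mp hx).2.symm)
      exact mem_image.mpr ⟨r, mem_univ _, hr.symm⟩
    calc _ ≤ _ := card_le_card this
      _ ≤ _ := card_image_le
      _ = _ := card_univ
  · have : univ.filter (fun x => K.pr x = b) = ∅ := by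
      apply filter_false_of_mem
      intro x _ hx
      exact h ⟨x, hx⟩
    rw [this]; simp

theorem card_touch_le (b : Q) :
    (univ.filter (fun y => b ∈ K.img y)).card ≤ n * Fintype.card R := by
  classical
  have : univ.filter (fun y => b ∈ K.img y) ⊆
      (univ : Finset (Fin n)).biUnion (fun i =>
        (univ.filter (fun x => K.pr x = b)).image (K.nbr i)) := by
    intro y hy
    obtain ⟨i, hi⟩ := K.mem_img.mp (mem_filter.mp hy).2
    refine mem_biUnion.mpr ⟨i, mem_univ _, mem_image.mpr ⟨K.nbr i y, ?_, K.nbr_inv i y⟩⟩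
    exact mem_filter.mpr ⟨mem_univ _, hi⟩
  calc _ ≤ _ := card_le_card this
    _ ≤ ∑ i : Fin n, ((univ.filter (fun x => K.pr x = b)).image (K.nbr i)).card :=
      card_biUnion_le
    _ ≤ ∑ _i : Fin n, Fintype.card R :=
      sum_le_sum (fun i _ => card_image_le.trans (K.card_fiber_le b))
    _ = _ := by simp

/-- The shifts for which no neighbour of `y` in the block `b` is placed in `A`. -/
def S (y : Q) (A : Finset Q) (b : Q) : Finset R :=
  univ.filter (fun r => ∀ i, K.pr (K.nbr i y) = b → K.sh r (K.nbr i y) ∉ A)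

/-- The placements for which no neighbour of `y` is placed in `A`. -/
def av (y : Q) (A : Finset Q) : Finset (Q → R) :=
  univ.filter (fun ρ => ∀ i, K.g ρ (K.nbr i y) ∉ A)

theorem av_eq (y : Q) (A : Finset Q) : K.av y A = Fintype.piFinset (K.S y A) := by
  ext ρ
  simp only [av, S, Fintype.mem_piFinset, mem_filter, mem_univ, true_and, g]
  constructor
  · intro h b i hi
    have := h i
    rwa [hi] at this
  · intro h i
    exact h _ i rfl

theorem card_av (y : Q) (A : Finset Q) : (K.av y A).card = ∏ b, (K.S y A b).card := by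
  rw [av_eq, Fintype.card_piFinset]

theorem S_of_not_mem {y b : Q} (A : Finset Q) (hb : b ∉ K.img y) : K.S y A b = univ := by
  apply filter_true_of_mem
  intro r _ i hi
  exact absurd (K.mem_img.mpr ⟨i, hi⟩) hb

theorem S_nbr {y : Q} (A : Finset Q) (i : Fin n) :
    K.S y A (K.pr (K.nbr i y)) = univ.filter (fun r => K.sh r (K.nbr i y) ∉ A) := by
  ext r
  simp only [S, mem_filter, mem_univ, true_and]
  constructor
  · intro h; exact h i rfl
  · intro h j hj
    have : j = i := by
      by_contra hne
      exact K.pr_nbr y j i hne hj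
    rw [this]; exact h

/-- Lower bound for the probability of avoiding `A`. -/
theorem av_ge (y : Q) (A : Finset Q) (θ : ℝ) (h0 : 0 ≤ θ) (h1 : θ ≤ 1)
    (hA : ∀ x, ((univ.filter (fun r => K.sh r x ∈ A)).card : ℝ) ≤ θ * Fintype.card R) :
    (1 - θ) ^ n * Fintype.card (Q → R) ≤ ((K.av y A).card : ℝ) := by
  classical
  rw [card_av, Fintype.card_fun]
  push_cast
  have hb : ∀ b, (if b ∈ K.img y then (1 - θ) else 1) * (Fintype.card R : ℝ) ≤
      ((K.S y A b).card : ℝ) := by
    intro b
    split_ifs with hb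
    · obtain ⟨i, rfl⟩ := K.mem_img.mp hb
      rw [S_nbr]
      have h2 := card_filter_add_card_filter_not (s := (univ : Finset R))
        (fun r => K.sh r (K.nbr i y) ∈ A)
      rw [card_univ] at h2
      have h3 : ((univ.filter (fun r => K.sh r (K.nbr i y) ∈ A)).card : ℝ) +
          ((univ.filter (fun r => K.sh r (K.nbr i y) ∉ A)).card : ℝ) = Fintype.card R := by
        exact_mod_cast h2
      have h4 := hA (K.nbr i y)
      linarith
    · rw [S_of_not_mem K A hb, card_univ, one_mul]
  calc (1 - θ) ^ n * (Fintype.card R : ℝ) ^ Fintype.card Q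
      ≤ (1 - θ) ^ (K.img y).card * (Fintype.card R : ℝ) ^ Fintype.card Q := by
        apply mul_le_mul_of_nonneg_right _ (by positivity)
        exact pow_le_pow_of_le_one (by linarith) (by linarith) (K.card_img_le y)
    _ = ∏ b : Q, ((if b ∈ K.img y then (1 - θ) else 1) * (Fintype.card R : ℝ)) := by
        rw [prod_mul_distrib, prod_const, card_univ, prod_ite_mem, univ_inter, prod_const]
    _ ≤ _ := prod_le_prod (fun b _ => by
        apply mul_nonneg _ (Nat.cast_nonneg _)
        split_ifs <;> linarith) (fun b _ => hb b)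

/-- Negative correlation for disjoint sets. -/
theorem av_union (y : Q) (A B : Finset Q) (hAB : Disjoint A B) :
    (K.av y (A ∪ B)).card * Fintype.card (Q → R) ≤ (K.av y A).card * (K.av y B).card := by
  classical
  rw [card_av, card_av, card_av, Fintype.card_fun]
  have : Fintype.card R ^ Fintype.card Q = ∏ _b : Q, Fintype.card R := by
    rw [prod_const, card_univ]
  rw [this, ← prod_mul_distrib, ← prod_mul_distrib]
  apply prod_le_prod' 
  intro b _
  by_cases hb : b ∈ K.img y
  · obtain ⟨i, rfl⟩ := K.mem_img.mp hb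
    rw [S_nbr, S_nbr, S_nbr]
    set a := (univ.filter (fun r => K.sh r (K.nbr i y) ∈ A)) with ha
    set c := (univ.filter (fun r => K.sh r (K.nbr i y) ∈ B)) with hc
    have h1 : (univ.filter (fun r => K.sh r (K.nbr i y) ∉ A)) = aᶜ := by
      ext r; simp [ha]
    have h2 : (univ.filter (fun r => K.sh r (K.nbr i y) ∉ B)) = cᶜ := by
      ext r; simp [hc]
    have h3 : (univ.filter (fun r => K.sh r (K.nbr i y) ∉ A ∪ B)) = (a ∪ c)ᶜ := by
      ext r; simp [ha, hc]
    have hd : Disjoint a c := by
      rw [disjoint_left]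
      intro r hr hr'
      exact disjoint_left.mp hAB (mem_filter.mp hr).2 (mem_filter.mp hr').2
    rw [h1, h2, h3, card_compl, card_compl, card_compl, card_union_of_disjoint hd]
    have h4 : a.card + c.card ≤ Fintype.card R := by
      rw [← card_union_of_disjoint hd]; exact card_le_univ _
    obtain ⟨u, hu⟩ := Nat.exists_eq_add_of_le h4
    rw [hu]
    have e1 : a.card + c.card + u - (a.card + c.card) = u := by omega
    have e2 : a.card + c.card + u - a.card = c.card + u := by omega
    have e3 : a.card + c.card + u - c.card = a.card + u := by omega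
    rw [e1, e2, e3]
    nlinarith
  · rw [S_of_not_mem K _ hb, S_of_not_mem K _ hb, S_of_not_mem K _ hb, card_univ]

/-- The number of placements for which some neighbour of `y` is placed in `A`. -/
theorem card_hit_le (y : Q) (A : Finset Q) [Nonempty R] :
    ((univ.filter (fun ρ : Q → R => ∃ i, K.g ρ (K.nbr i y) ∈ A)).card : ℝ) *
      Fintype.card R ≤
      Fintype.card (Q → R) * ∑ i, ((univ.filter (fun r => K.sh r (K.nbr i y) ∈ A)).card : ℝ) := by
  classical
  have h1 : (univ.filter (fun ρ : Q → R => ∃ i, K.g ρ (K.nbr i y) ∈ A)) ⊆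
      univ.biUnion (fun i : Fin n => univ.filter (fun ρ : Q → R => K.g ρ (K.nbr i y) ∈ A)) := by
    intro ρ hρ
    obtain ⟨i, hi⟩ := (mem_filter.mp hρ).2
    exact mem_biUnion.mpr ⟨i, mem_univ _, mem_filter.mpr ⟨mem_univ _, hi⟩⟩
  have h2 : ∀ i : Fin n, ((univ.filter (fun ρ : Q → R => K.g ρ (K.nbr i y) ∈ A)).card : ℝ) *
      Fintype.card R = Fintype.card (Q → R) *
        ((univ.filter (fun r => K.sh r (K.nbr i y) ∈ A)).card : ℝ) := by
    intro i
    have h3 : (univ.filter (fun ρ : Q → R => K.g ρ (K.nbr i y) ∈ A)) =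
        Fintype.piFinset (fun b => if b = K.pr (K.nbr i y) then
          (univ.filter (fun r => K.sh r (K.nbr i y) ∈ A)) else univ) := by
      ext ρ
      simp only [mem_filter, mem_univ, true_and, Fintype.mem_piFinset, g]
      constructor
      · intro h b
        split_ifs with hb
        · rw [hb]; exact mem_filter.mpr ⟨mem_univ _, h⟩
        · exact mem_univ _
      · intro h
        have := h (K.pr (K.nbr i y))
        rw [if_pos rfl] at this
        exact (mem_filter.mp this).2
    rw [h3, Fintype.card_piFinset]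
    have h4 : ∀ b : Q, (if b = K.pr (K.nbr i y) then
          (univ.filter (fun r => K.sh r (K.nbr i y) ∈ A)) else univ).card =
        if b = K.pr (K.nbr i y) then (univ.filter (fun r => K.sh r (K.nbr i y) ∈ A)).card
        else Fintype.card R := by
      intro b
      split_ifs <;> simp
    rw [prod_congr rfl (fun b _ => h4 b), Fintype.card_fun]
    rw [← mul_prod_erase univ _ (mem_univ (K.pr (K.nbr i y))), if_pos rfl,
      prod_congr rfl (g := fun _ => Fintype.card R) (fun b hb => by
        rw [if_neg (ne_of_mem_erase hb)]), prod_const, card_erase_of_mem (mem_univ _), card_univ]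
    have h5 : Fintype.card Q - 1 + 1 = Fintype.card Q :=
      Nat.sub_add_cancel (Fintype.card_pos_iff.mpr ⟨y⟩)
    have h6 : (Fintype.card R) ^ Fintype.card Q =
        Fintype.card R ^ (Fintype.card Q - 1) * Fintype.card R := by
      rw [← pow_succ, h5]
    rw [h6]
    push_cast
    ring
  calc _ ≤ (∑ i : Fin n, ((univ.filter (fun ρ : Q → R => K.g ρ (K.nbr i y) ∈ A)).card : ℝ)) *
          Fintype.card R := by
        apply mul_le_mul_of_nonneg_right _ (Nat.cast_nonneg _)
        have := (card_le_card h1).trans card_biUnion_le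
        exact_mod_cast this
    _ = _ := by
        rw [sum_mul, mul_sum]
        exact sum_congr rfl (fun i _ => h2 i)

end BC

end Pool.Agent.H16.Cube
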