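import Pool.Agent.H16.Cube.Prob

/-!
# Tail estimates for the random placement
-/

open Finset

set_option linter.unusedSectionVars false

namespace Pool.Agent.H16.Cube

theorem avg_count {Ω Z : Type} [Fintype Ω] (s : Finset Z) (P : Ω → Z → Prop)
    [∀ ω z, Decidable (P ω z)] :
    avg (fun ω => ((s.filter (P ω)).card : ℝ)) =
      (∑ z ∈ s, ((univ.filter (fun ω => P ω z)).card : ℝ)) / Fintype.card Ω := by
  classical
  unfold avg
  congr 1
  simp only [card_filter]
  push_cast
  rw [sum_comm]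

variable {Q R : Type} [Fintype Q] [DecidableEq Q] [Fintype R] [DecidableEq R] {n : ℕ}

namespace BC

variable (K : BC Q R n)

theorem lip_local (s : Finset Q) (P : (Q → R) → Q → Prop) [∀ ω z, Decidable (P ω z)]
    (hP : ∀ ρ ρ' y, (∀ b ∈ K.img y, ρ b = ρ' b) → (P ρ y → P ρ' y)) (b : Q) (ρ : Q → R) (r : R) :
    |(((s.filter (P (Function.update ρ b r))).card : ℝ)) - ((s.filter (P ρ)).card : ℝ)| ≤
      (n * Fintype.card R : ℕ) := by
  classical
  have key : ∀ ρ ρ' : Q → R, (∀ b', b' ≠ b → ρ b' = ρ' b') →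
      (s.filter (P ρ)).card ≤ (s.filter (P ρ')).card + n * Fintype.card R := by
    intro ρ ρ' h
    have h1 : s.filter (P ρ) ⊆ s.filter (P ρ') ∪ univ.filter (fun y => b ∈ K.img y) := by
      intro y hy
      by_cases hb : b ∈ K.img y
      · exact mem_union_right _ (mem_filter.mpr ⟨mem_univ _, hb⟩)
      · refine mem_union_left _ (mem_filter.mpr ⟨(mem_filter.mp hy).1, ?_⟩)
        refine hP ρ ρ' y ?_ (mem_filter.mp hy).2
        intro b' hb'
        apply h
        rintro rfl
        exact hb hb'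
    calc _ ≤ _ := card_le_card h1
      _ ≤ _ := card_union_le _ _
      _ ≤ _ := Nat.add_le_add_left (K.card_touch_le b) _
  have h1 := key (Function.update ρ b r) ρ (fun b' hb' => Function.update_of_ne hb' _ _)
  have h2 := key ρ (Function.update ρ b r) (fun b' hb' => (Function.update_of_ne hb' _ _).symm)
  have h1' : ((s.filter (P (Function.update ρ b r))).card : ℝ) ≤
      ((s.filter (P ρ)).card : ℝ) + ((n * Fintype.card R : ℕ) : ℝ) := by exact_mod_cast h1
  have h2' : ((s.filter (P ρ)).card : ℝ) ≤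
      ((s.filter (P (Function.update ρ b r))).card : ℝ) + ((n * Fintype.card R : ℕ) : ℝ) := by
    exact_mod_cast h2
  rw [abs_le]
  constructor <;> linarith

variable (adj : Q → Q → Prop) [DecidableRel adj]

/-- Neighbours in the forbidden graph. -/
def Nb (v : Q) : Finset Q := univ.filter (fun z => adj v z)

/-- The vertices of `O` which can be used for `y`. -/
def cand (ρ : Q → R) (y : Q) : Finset Q := K.O.filter (fun v => ρ ∈ K.av y (Nb adj v))

theorem av_dep (y : Q) (A : Finset Q) {ρ ρ' : Q → R} (h : ∀ b ∈ K.img y, ρ b = ρ' b)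
    (hρ : ρ ∈ K.av y A) : ρ' ∈ K.av y A := by
  simp only [av, mem_filter, mem_univ, true_and] at hρ ⊢
  intro i
  rw [← K.g_congr h i]
  exact hρ i

/-- The bad events of the local lemma. -/
noncomputable def Ebad (x : ℝ) (y : Q) : Finset (Q → R) :=
  univ.filter (fun ρ => ((K.cand adj ρ y).card : ℝ) ≤ x)

theorem Ebad_dep (x : ℝ) (y : Q) : DependsOn (K.Ebad adj x y) (K.img y) := by
  intro ρ ρ' h hρ
  simp only [Ebad, mem_filter, mem_univ, true_and] at hρ ⊢
  have : K.cand adj ρ' y = K.cand adj ρ y := by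
    ext v
    simp only [cand, mem_filter]
    constructor
    · rintro ⟨h1, h2⟩
      exact ⟨h1, K.av_dep y _ (fun b hb => (h b hb).symm) h2⟩
    · rintro ⟨h1, h2⟩
      exact ⟨h1, K.av_dep y _ h h2⟩
  rw [this]
  exact hρ

theorem dep_count (y : Q) :
    (univ.filter (fun z => z ≠ y ∧ ¬ Disjoint (K.img y) (K.img z))).card ≤
      n * (n * Fintype.card R) := by
  classical
  have h1 : univ.filter (fun z => z ≠ y ∧ ¬ Disjoint (K.img y) (K.img z)) ⊆
      (K.img y).biUnion (fun b => univ.filter (fun z => b ∈ K.img z)) := by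
    intro z hz
    obtain ⟨b, hb1, hb2⟩ := Finset.not_disjoint_iff.mp (mem_filter.mp hz).2.2
    exact mem_biUnion.mpr ⟨b, hb1, mem_filter.mpr ⟨mem_univ _, hb2⟩⟩
  calc _ ≤ _ := card_le_card h1
    _ ≤ ∑ b ∈ K.img y, (univ.filter (fun z => b ∈ K.img z)).card := card_biUnion_le
    _ ≤ ∑ _b ∈ K.img y, n * Fintype.card R := sum_le_sum (fun b _ => K.card_touch_le b)
    _ = (K.img y).card * (n * Fintype.card R) := by rw [sum_const, smul_eq_mul]
    _ ≤ _ := Nat.mul_le_mul_right _ (K.card_img_le y)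

variable (hsymm : ∀ u v, adj u v → adj v u)
  (Δ θ a : ℝ) (hΔ : ∀ v, ((Nb adj v).card : ℝ) ≤ Δ)
  (hθ0 : 0 ≤ θ) (hθ1 : θ ≤ 1)
  (hrep : ∀ v x, ((univ.filter (fun r => K.sh r x ∈ Nb adj v)).card : ℝ) ≤ θ * Fintype.card R)
  (ha : a ≤ (1 - θ) ^ n) (ha0 : 0 < a)

include hrep hθ0 hθ1 ha in
theorem av_ge' (y v : Q) (A : Finset Q) (hA : A ⊆ Nb adj v) :
    a * Fintype.card (Q → R) ≤ ((K.av y A).card : ℝ) := by
  refine le_trans ?_ (K.av_ge y A θ hθ0 hθ1 ?_)
  · exact mul_le_mul_of_nonneg_right ha (Nat.cast_nonneg _)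
  · intro x
    refine le_trans ?_ (hrep v x)
    have : univ.filter (fun r => K.sh r x ∈ A) ⊆ univ.filter (fun r => K.sh r x ∈ Nb adj v) := by
      intro r hr
      exact mem_filter.mpr ⟨mem_univ _, hA (mem_filter.mp hr).2⟩
    exact_mod_cast card_le_card this

include hsymm hΔ in
theorem lip_cand (y b : Q) (ρ : Q → R) (r : R) :
    |((K.cand adj (Function.update ρ b r) y).card : ℝ) - ((K.cand adj ρ y).card : ℝ)| ≤
      if b ∈ K.img y then Δ else 0 := by
  classical
  by_cases hb : b ∈ K.img y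
  · rw [if_pos hb]
    obtain ⟨i₀, hi₀⟩ := K.mem_img.mp hb
    have key : ∀ ρ ρ' : Q → R, (∀ b', b' ≠ b → ρ b' = ρ' b') →
        ((K.cand adj ρ y).card : ℝ) ≤ ((K.cand adj ρ' y).card : ℝ) + Δ := by
      intro ρ ρ' h
      have h1 : K.cand adj ρ y ⊆ K.cand adj ρ' y ∪ Nb adj (K.g ρ' (K.nbr i₀ y)) := by
        intro v hv
        obtain ⟨hvO, hv⟩ := mem_filter.mp hv
        by_cases hadj : adj (K.g ρ' (K.nbr i₀ y)) v
        · exact mem_union_right _ (mem_filter.mpr ⟨mem_univ _, hadj⟩)
        · refine mem_union_left _ (mem_filter.mpr ⟨hvO, ?_⟩)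
          simp only [av, mem_filter, mem_univ, true_and] at hv ⊢
          intro i hi
          by_cases hii : i = i₀
          · subst hii
            exact hadj (hsymm _ _ (mem_filter.mp hi).2)
          · apply hv i
            have h2 : K.g ρ (K.nbr i y) = K.g ρ' (K.nbr i y) := by
              unfold g
              rw [h]
              intro h3
              exact K.pr_nbr y i i₀ hii (h3.trans hi₀.symm)
            rw [h2]; exact hi
      have h2 := (card_le_card h1).trans (card_union_le _ _)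
      have h3 : ((K.cand adj ρ y).card : ℝ) ≤ ((K.cand adj ρ' y).card : ℝ) +
          ((Nb adj (K.g ρ' (K.nbr i₀ y))).card : ℝ) := by exact_mod_cast h2
      linarith [hΔ (K.g ρ' (K.nbr i₀ y))]
    have h1 := key (Function.update ρ b r) ρ (fun b' hb' => Function.update_of_ne hb' _ _)
    have h2 := key ρ (Function.update ρ b r) (fun b' hb' => (Function.update_of_ne hb' _ _).symm)
    rw [abs_le]
    constructor <;> linarith
  · rw [if_neg hb]
    have : K.cand adj (Function.update ρ b r) y = K.cand adj ρ y := by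
      have hne : ∀ b' ∈ K.img y, Function.update ρ b r b' = ρ b' := by
        intro b' hb'
        rw [Function.update_of_ne]
        rintro rfl
        exact hb hb'
      ext v
      simp only [cand, mem_filter]
      constructor
      · rintro ⟨h1, h2⟩
        exact ⟨h1, K.av_dep y _ hne h2⟩
      · rintro ⟨h1, h2⟩
        exact ⟨h1, K.av_dep y _ (fun b' hb' => (hne b' hb').symm) h2⟩
    rw [this]; simp

include hsymm hΔ hrep hθ0 hθ1 ha ha0 in
theorem Ebad_card (hn : 1 ≤ n) (hΔ0 : 0 < Δ) [Nonempty R] (y : Q) :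
    ((K.Ebad adj (a / 2 * K.O.card) y).card : ℝ) ≤
      Real.exp (-((a / 2 * K.O.card) ^ 2 / (2 * (n * Δ ^ 2)))) * Fintype.card (Q → R) := by
  classical
  have hΩ : (0 : ℝ) < Fintype.card (Q → R) := by exact_mod_cast Fintype.card_pos
  refine mcd_lower (fun ρ => ((K.cand adj ρ y).card : ℝ))
    (fun b => if b ∈ K.img y then Δ else 0) ?_ ?_ _ _ ?_ ?_ ?_ _ ?_
  · intro b; split_ifs <;> linarith
  · intro b ρ r
    exact K.lip_cand adj hsymm Δ hΔ y b ρ r
  · positivity
  · have : (0 : ℝ) < n := by exact_mod_cast hn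
    positivity
  · have h1 : ∀ b : Q, (if b ∈ K.img y then Δ else 0) ^ 2 = if b ∈ K.img y then Δ ^ 2 else 0 := by
      intro b; split_ifs <;> simp
    rw [sum_congr rfl (fun b _ => h1 b), sum_ite_mem, univ_inter, sum_const, nsmul_eq_mul]
    apply mul_le_mul_of_nonneg_right _ (by positivity)
    exact_mod_cast K.card_img_le y
  · intro ρ hρ
    have h1 : avg (fun ρ => ((K.cand adj ρ y).card : ℝ)) ≥ a * K.O.card := by
      have h2 := avg_count (Ω := Q → R) K.O (fun ρ v => ρ ∈ K.av y (Nb adj v))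
      change avg (fun ρ => ((K.cand adj ρ y).card : ℝ)) = _ at h2
      rw [h2, ge_iff_le, le_div_iff₀ hΩ]
      calc a * K.O.card * Fintype.card (Q → R) = ∑ _v ∈ K.O, a * Fintype.card (Q → R) := by
            rw [sum_const, nsmul_eq_mul]; ring
        _ ≤ _ := by
            apply sum_le_sum
            intro v _
            refine (K.av_ge' adj θ a hθ0 hθ1 hrep ha y v _ (Subset.refl _)).trans (le_of_eq ?_)
            congr 2
            ext ρ
            simp
    have h2 := (mem_filter.mp hρ).2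
    change ((K.cand adj ρ y).card : ℝ) ≤ _
    linarith

/-- The placements for which few `y` can use `v`. -/
noncomputable def Fbad (x : ℝ) (v : Q) : Finset (Q → R) :=
  univ.filter (fun ρ => ((K.O.filter (fun y => ρ ∈ K.av y (Nb adj v))).card : ℝ) ≤ x)

include hrep hθ0 hθ1 ha ha0 in
theorem Fbad_card (hn : 1 ≤ n) [Nonempty R] (v : Q) :
    ((K.Fbad adj (a / 2 * K.O.card) v).card : ℝ) ≤
      Real.exp (-((a / 2 * K.O.card) ^ 2 /
        (2 * (Fintype.card Q * ((n * Fintype.card R : ℕ) : ℝ) ^ 2)))) * Fintype.card (Q → R) := by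
  classical
  have hΩ : (0 : ℝ) < Fintype.card (Q → R) := by exact_mod_cast Fintype.card_pos
  refine mcd_lower (fun ρ => ((K.O.filter (fun y => ρ ∈ K.av y (Nb adj v))).card : ℝ))
    (fun _ => ((n * Fintype.card R : ℕ) : ℝ)) (fun _ => Nat.cast_nonneg _) ?_ _ _ ?_ ?_ ?_ _ ?_
  · intro b ρ r
    exact K.lip_local K.O (fun ρ y => ρ ∈ K.av y (Nb adj v))
      (fun ρ ρ' y h hρ => K.av_dep y _ h hρ) b ρ r
  · positivity
  · have h1 : 0 < n * Fintype.card R := Nat.mul_pos hn Fintype.card_pos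
    have h2 : (0 : ℝ) < ((n * Fintype.card R : ℕ) : ℝ) := by exact_mod_cast h1
    have h3 : (0 : ℝ) < Fintype.card Q := by exact_mod_cast Fintype.card_pos_iff.mpr ⟨v⟩
    positivity
  · rw [sum_const, card_univ, nsmul_eq_mul]
  · intro ρ hρ
    have h1 : avg (fun ρ => ((K.O.filter (fun y => ρ ∈ K.av y (Nb adj v))).card : ℝ)) ≥
        a * K.O.card := by
      have h2 := avg_count (Ω := Q → R) K.O (fun ρ y => ρ ∈ K.av y (Nb adj v))
      rw [h2, ge_iff_le, le_div_iff₀ hΩ]
      calc a * K.O.card * Fintype.card (Q → R) = ∑ _v ∈ K.O, a * Fintype.card (Q → R) := by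
            rw [sum_const, nsmul_eq_mul]; ring
        _ ≤ _ := by
            apply sum_le_sum
            intro y _
            refine (K.av_ge' adj θ a hθ0 hθ1 hrep ha y v _ (Subset.refl _)).trans (le_of_eq ?_)
            congr 2
            ext ρ
            simp
    have h2 := (mem_filter.mp hρ).2
    change ((K.O.filter (fun y => ρ ∈ K.av y (Nb adj v))).card : ℝ) ≤ _
    linarith

/-- The `y` which cannot use any element of `T`. -/
def badY (T : Finset Q) (ρ : Q → R) : Finset Q :=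
  K.O.filter (fun y => ∀ v ∈ T, ρ ∉ K.av y (Nb adj v))

/-- The vertices in two neighbourhoods of elements of `T`. -/
def II (T : Finset Q) : Finset Q :=
  univ.filter (fun z => ∃ v ∈ T, ∃ v' ∈ T, v ≠ v' ∧ z ∈ Nb adj v ∧ z ∈ Nb adj v')

theorem II_card (T : Finset Q) (E : ℝ) (hE : ∀ v ∈ T, ∀ v' ∈ T, v ≠ v' →
    ((Nb adj v ∩ Nb adj v').card : ℝ) ≤ E) (hE0 : 0 ≤ E) :
    ((II adj T).card : ℝ) ≤ T.card ^ 2 * E := by
  classical
  have h1 : II adj T ⊆ ((T ×ˢ T).filter (fun p => p.1 ≠ p.2)).biUnion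
      (fun p => Nb adj p.1 ∩ Nb adj p.2) := by
    intro z hz
    obtain ⟨v, hv, v', hv', hne, h2, h3⟩ := (mem_filter.mp hz).2
    exact mem_biUnion.mpr ⟨(v, v'), mem_filter.mpr ⟨mem_product.mpr ⟨hv, hv'⟩, hne⟩,
      mem_inter.mpr ⟨h2, h3⟩⟩
  have h2 : ((II adj T).card : ℝ) ≤ ∑ p ∈ (T ×ˢ T).filter (fun p => p.1 ≠ p.2),
      ((Nb adj p.1 ∩ Nb adj p.2).card : ℝ) := by
    exact_mod_cast (card_le_card h1).trans card_biUnion_le
  calc _ ≤ _ := h2
    _ ≤ ∑ _p ∈ (T ×ˢ T).filter (fun p => p.1 ≠ p.2), E := by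
        apply sum_le_sum
        intro p hp
        have h3 := mem_filter.mp hp
        exact hE _ (mem_product.mp h3.1).1 _ (mem_product.mp h3.1).2 h3.2
    _ = (((T ×ˢ T).filter (fun p => p.1 ≠ p.2)).card : ℝ) * E := by
        rw [sum_const, nsmul_eq_mul]
    _ ≤ _ := by
        apply mul_le_mul_of_nonneg_right _ hE0
        have : ((T ×ˢ T).filter (fun p => p.1 ≠ p.2)).card ≤ T.card ^ 2 := by
          calc _ ≤ (T ×ˢ T).card := card_filter_le _ _
            _ = _ := by rw [card_product]; ring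
        exact_mod_cast this

include hrep hθ0 hθ1 ha ha0 in
/-- Second moment bound. -/
theorem second_moment [Nonempty R] (y : Q) (T : Finset Q) (hT : 0 < T.card) :
    ((univ.filter (fun ρ : Q → R => ∀ v ∈ T, ρ ∉ K.av y (Nb adj v \ II adj T))).card : ℝ) ≤
      Fintype.card (Q → R) / (T.card * a) := by
  classical
  have hΩ : (0 : ℝ) < Fintype.card (Q → R) := by exact_mod_cast Fintype.card_pos
  have hTpos : (0 : ℝ) < T.card := by exact_mod_cast hT
  set A : Q → Finset Q := fun v => Nb adj v \ II adj T with hA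
  set Ω : ℝ := ((Fintype.card (Q → R) : ℕ) : ℝ) with hΩdef
  set M : ℝ := ∑ v ∈ T, ((K.av y (A v)).card : ℝ) with hM
  let Z : (Q → R) → ℝ := fun ρ => ((T.filter (fun v => ρ ∈ K.av y (A v))).card : ℝ)
  have hZsum : ∑ ρ, Z ρ = M := by
    simp only [Z, card_filter]
    push_cast
    rw [sum_comm]
    apply sum_congr rfl
    intro v _
    rw [← sum_filter, sum_const, nsmul_eq_mul, mul_one]
    congr 2
    ext ρ; simp
  have hMge : T.card * a * Ω ≤ M := by
    calc T.card * a * Ω = ∑ _v ∈ T, a * Ω := by rw [sum_const, nsmul_eq_mul]; ring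
      _ ≤ M := sum_le_sum (fun v _ =>
          K.av_ge' adj θ a hθ0 hθ1 hrep ha y v (A v) sdiff_subset)
  have hMpos : 0 < M := lt_of_lt_of_le (by positivity) hMge
  have hZ2 : (∑ ρ, Z ρ ^ 2) * Ω ≤ M * Ω + M ^ 2 := by
    have h1 : ∑ ρ, Z ρ ^ 2 = ∑ v ∈ T, ∑ v' ∈ T, ((K.av y (A v) ∩ K.av y (A v')).card : ℝ) := by
      have h2 : ∀ ρ, Z ρ ^ 2 = ∑ v ∈ T, ∑ v' ∈ T,
          (if ρ ∈ K.av y (A v) ∩ K.av y (A v') then (1 : ℝ) else 0) := by
        intro ρ
        simp only [Z, card_filter]
        push_cast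
        rw [sq, sum_mul_sum]
        apply sum_congr rfl
        intro v _
        apply sum_congr rfl
        intro v' _
        rw [ite_mul, one_mul, zero_mul]
        by_cases h : ρ ∈ K.av y (A v) <;> by_cases h' : ρ ∈ K.av y (A v') <;> simp [h, h']
      rw [sum_congr rfl (fun ρ _ => h2 ρ), sum_comm]
      apply sum_congr rfl
      intro v _
      rw [sum_comm]
      apply sum_congr rfl
      intro v' _
      rw [← sum_filter, sum_const, nsmul_eq_mul, mul_one]
      congr 2
      ext ρ; simp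
    have h2 : ∀ v ∈ T, ∀ v' ∈ T, ((K.av y (A v) ∩ K.av y (A v')).card : ℝ) * Ω ≤
        (if v = v' then ((K.av y (A v)).card : ℝ) * Ω else 0) +
          ((K.av y (A v)).card : ℝ) * ((K.av y (A v')).card : ℝ) := by
      intro v hv v' hv'
      by_cases h : v = v'
      · subst h
        rw [if_pos rfl, inter_self]
        have : 0 ≤ ((K.av y (A v)).card : ℝ) * ((K.av y (A v)).card : ℝ) := by positivity
        linarith
      · rw [if_neg h, zero_add]
        have hdis : Disjoint (A v) (A v') := by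
          rw [disjoint_left]
          intro z hz hz'
          have hz1 := mem_sdiff.mp hz
          have hz2 := mem_sdiff.mp hz'
          exact hz1.2 (mem_filter.mpr ⟨mem_univ _, v, hv, v', hv', h, hz1.1, hz2.1⟩)
        have h3 := K.av_union y (A v) (A v') hdis
        have h4 : K.av y (A v) ∩ K.av y (A v') = K.av y (A v ∪ A v') := by
          ext ρ
          simp only [av, mem_inter, mem_filter, mem_univ, true_and, mem_union, not_or]
          constructor
          · rintro ⟨h5, h6⟩ i; exact ⟨h5 i, h6 i⟩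
          · intro h5; exact ⟨fun i => (h5 i).1, fun i => (h5 i).2⟩
        rw [h4, hΩdef]
        exact_mod_cast h3
    rw [h1, sum_mul]
    calc ∑ v ∈ T, (∑ v' ∈ T, ((K.av y (A v) ∩ K.av y (A v')).card : ℝ)) * Ω
        = ∑ v ∈ T, ∑ v' ∈ T, ((K.av y (A v) ∩ K.av y (A v')).card : ℝ) * Ω := by
          apply sum_congr rfl; intro v _; rw [sum_mul]
      _ ≤ ∑ v ∈ T, ∑ v' ∈ T, ((if v = v' then ((K.av y (A v)).card : ℝ) * Ω else 0) +
          ((K.av y (A v)).card : ℝ) * ((K.av y (A v')).card : ℝ)) :=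
          sum_le_sum (fun v hv => sum_le_sum (fun v' hv' => h2 v hv v' hv'))
      _ = M * Ω + M ^ 2 := by
          simp only [sum_add_distrib]
          congr 1
          · rw [hM, sum_mul]
            apply sum_congr rfl
            intro v hv
            rw [sum_ite_eq, if_pos hv]
          · rw [sq, hM, sum_mul_sum]
  -- Chebyshev
  set B := univ.filter (fun ρ : Q → R => ∀ v ∈ T, ρ ∉ K.av y (A v)) with hB
  have hcheb : (B.card : ℝ) * (M / Ω) ^ 2 ≤ M := by
    have h1 : (B.card : ℝ) * (M / Ω) ^ 2 ≤ ∑ ρ, (Z ρ - M / Ω) ^ 2 := by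
      calc (B.card : ℝ) * (M / Ω) ^ 2 = ∑ _ρ ∈ B, (M / Ω) ^ 2 := by
            rw [sum_const, nsmul_eq_mul]
        _ = ∑ ρ ∈ B, (Z ρ - M / Ω) ^ 2 := by
            apply sum_congr rfl
            intro ρ hρ
            have : Z ρ = 0 := by
              simp only [Z, Nat.cast_eq_zero, card_eq_zero]
              apply filter_false_of_mem
              intro v hv
              exact (mem_filter.mp hρ).2 v hv
            rw [this]; ring
        _ ≤ _ := sum_le_sum_of_subset_of_nonneg (subset_univ _) (fun _ _ _ => sq_nonneg _)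
    have h2 : ∑ ρ, (Z ρ - M / Ω) ^ 2 = (∑ ρ, Z ρ ^ 2) - M ^ 2 / Ω := by
      have h3 : ∀ ρ, (Z ρ - M / Ω) ^ 2 = Z ρ ^ 2 - 2 * (M / Ω) * Z ρ + (M / Ω) ^ 2 := by
        intro ρ; ring
      rw [sum_congr rfl (fun ρ _ => h3 ρ), sum_add_distrib, sum_sub_distrib, ← mul_sum, hZsum,
        sum_const, card_univ, nsmul_eq_mul]
      rw [← hΩdef]
      field_simp
      ring
    have h3 : ∑ ρ, Z ρ ^ 2 ≤ M + M ^ 2 / Ω := by
      have : M + M ^ 2 / Ω = (M * Ω + M ^ 2) / Ω := by field_simp
      rw [this, le_div_iff₀ hΩ]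
      exact hZ2
    linarith
  have h5 : (B.card : ℝ) ≤ Ω ^ 2 / M := by
    rw [le_div_iff₀ hMpos]
    have h6 : (B.card : ℝ) * (M / Ω) ^ 2 * Ω ^ 2 ≤ M * Ω ^ 2 :=
      mul_le_mul_of_nonneg_right hcheb (by positivity)
    have h7 : (B.card : ℝ) * (M / Ω) ^ 2 * Ω ^ 2 = (B.card * M) * M := by
      field_simp
    rw [h7, mul_comm M] at h6
    exact le_of_mul_le_mul_right h6 hMpos
  refine h5.trans ?_
  rw [div_le_div_iff₀ hMpos (by positivity)]
  calc Ω ^ 2 * (T.card * a) = Ω * (T.card * a * Ω) := by ring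
    _ ≤ Ω * M := mul_le_mul_of_nonneg_left hMge hΩ.le

include hrep hθ0 hθ1 ha ha0 in
theorem avg_bad [Nonempty R] (T : Finset Q) (hT : 0 < T.card) (E : ℝ)
    (hE : ∀ v ∈ T, ∀ v' ∈ T, v ≠ v' → ((Nb adj v ∩ Nb adj v').card : ℝ) ≤ E) (hE0 : 0 ≤ E) :
    avg (fun ρ => ((K.badY adj T ρ).card : ℝ)) ≤
      n * (T.card ^ 2 * E) + K.O.card / (T.card * a) := by
  classical
  have hΩ : (0 : ℝ) < Fintype.card (Q → R) := by exact_mod_cast Fintype.card_pos
  have hR : (0 : ℝ) < Fintype.card R := by exact_mod_cast Fintype.card_pos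
  have h2 := avg_count (Ω := Q → R) K.O (fun ρ y => ∀ v ∈ T, ρ ∉ K.av y (Nb adj v))
  change avg (fun ρ => ((K.badY adj T ρ).card : ℝ)) = _ at h2
  rw [h2, div_le_iff₀ hΩ]
  have h3 : ∀ y ∈ K.O, ((univ.filter (fun ρ : Q → R => ∀ v ∈ T, ρ ∉ K.av y (Nb adj v))).card : ℝ) ≤
      ((univ.filter (fun ρ : Q → R => ∃ i, K.g ρ (K.nbr i y) ∈ II adj T)).card : ℝ) +
      Fintype.card (Q → R) / (T.card * a) := by
    intro y _
    have h4 : univ.filter (fun ρ : Q → R => ∀ v ∈ T, ρ ∉ K.av y (Nb adj v)) ⊆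
        univ.filter (fun ρ : Q → R => ∃ i, K.g ρ (K.nbr i y) ∈ II adj T) ∪
        univ.filter (fun ρ : Q → R => ∀ v ∈ T, ρ ∉ K.av y (Nb adj v \ II adj T)) := by
      intro ρ hρ
      by_cases h : ∃ i, K.g ρ (K.nbr i y) ∈ II adj T
      · exact mem_union_left _ (mem_filter.mpr ⟨mem_univ _, h⟩)
      · refine mem_union_right _ (mem_filter.mpr ⟨mem_univ _, ?_⟩)
        intro v hv hav
        apply (mem_filter.mp hρ).2 v hv
        simp only [av, mem_filter, mem_univ, true_and, mem_sdiff, not_and, not_not] at hav ⊢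
        push Not at h
        intro i hi
        exact h i (hav i hi)
    have h5 := (card_le_card h4).trans (card_union_le _ _)
    have h6 := K.second_moment adj θ a hθ0 hθ1 hrep ha ha0 y T hT
    have h5' : ((univ.filter (fun ρ : Q → R => ∀ v ∈ T, ρ ∉ K.av y (Nb adj v))).card : ℝ) ≤
      ((univ.filter (fun ρ : Q → R => ∃ i, K.g ρ (K.nbr i y) ∈ II adj T)).card : ℝ) +
      ((univ.filter (fun ρ : Q → R => ∀ v ∈ T, ρ ∉ K.av y (Nb adj v \ II adj T))).card : ℝ) := by
      exact_mod_cast h5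
    linarith
  have h7 : (∑ y ∈ K.O,
      ((univ.filter (fun ρ : Q → R => ∃ i, K.g ρ (K.nbr i y) ∈ II adj T)).card : ℝ)) ≤
      Fintype.card (Q → R) * (n * (II adj T).card) := by
    have h8 : (∑ y ∈ K.O,
      ((univ.filter (fun ρ : Q → R => ∃ i, K.g ρ (K.nbr i y) ∈ II adj T)).card : ℝ)) *
        Fintype.card R ≤ (Fintype.card (Q → R) * (n * (II adj T).card)) * Fintype.card R := by
      rw [sum_mul]
      calc _ ≤ ∑ y ∈ K.O, (Fintype.card (Q → R) : ℝ) *
            ∑ i, ((univ.filter (fun r => K.sh r (K.nbr i y) ∈ II adj T)).card : ℝ) :=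
            sum_le_sum (fun y _ => K.card_hit_le y (II adj T))
        _ = (Fintype.card (Q → R) : ℝ) * ∑ i : Fin n, ∑ y ∈ K.O,
            ((univ.filter (fun r => K.sh r (K.nbr i y) ∈ II adj T)).card : ℝ) := by
            rw [← mul_sum, sum_comm]
        _ ≤ (Fintype.card (Q → R) : ℝ) * ∑ _i : Fin n,
            ((Fintype.card R : ℝ) * (II adj T).card) := by
            apply mul_le_mul_of_nonneg_left _ hΩ.le
            apply sum_le_sum
            intro i _
            have h9 : ∑ y ∈ K.O, (univ.filter (fun r => K.sh r (K.nbr i y) ∈ II adj T)).card ≤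
                Fintype.card R * (II adj T).card := by
              simp only [card_filter]
              rw [sum_comm]
              calc _ ≤ ∑ _r : R, (II adj T).card := by
                    apply sum_le_sum
                    intro r _
                    rw [← card_filter]
                    apply card_le_card_of_injOn (fun y => K.sh r (K.nbr i y))
                    · intro y hy
                      exact (mem_filter.mp hy).2
                    · intro y _ y' _ hyy
                      have h10 := K.sh_inj r hyy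
                      rw [← K.nbr_inv i y, h10, K.nbr_inv]
                _ = _ := by simp
            exact_mod_cast h9
        _ = _ := by
            rw [sum_const, card_univ, Fintype.card_fin, nsmul_eq_mul]; ring
    exact le_of_mul_le_mul_right h8 hR
  have h8 := II_card adj T E hE hE0
  calc _ ≤ _ := sum_le_sum h3
    _ = (∑ y ∈ K.O,
      ((univ.filter (fun ρ : Q → R => ∃ i, K.g ρ (K.nbr i y) ∈ II adj T)).card : ℝ)) +
        K.O.card * (Fintype.card (Q → R) / (T.card * a)) := by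
        rw [sum_add_distrib, sum_const, nsmul_eq_mul]
    _ ≤ Fintype.card (Q → R) * (n * (T.card ^ 2 * E)) +
        K.O.card * (Fintype.card (Q → R) / (T.card * a)) := by
        apply add_le_add_left
        refine h7.trans ?_
        apply mul_le_mul_of_nonneg_left _ hΩ.le
        exact mul_le_mul_of_nonneg_left h8 (Nat.cast_nonneg _)
    _ = _ := by ring

/-- The placements for which too many `y` cannot use any element of `T`. -/
noncomputable def Tbad (x : ℝ) (T : Finset Q) : Finset (Q → R) :=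
  univ.filter (fun ρ => x ≤ ((K.badY adj T ρ).card : ℝ))

include hrep hθ0 hθ1 ha ha0 in
theorem Tbad_card (hn : 1 ≤ n) [Nonempty R] (T : Finset Q) (hT : 0 < T.card) (E : ℝ)
    (hE : ∀ v ∈ T, ∀ v' ∈ T, v ≠ v' → ((Nb adj v ∩ Nb adj v').card : ℝ) ≤ E) (hE0 : 0 ≤ E)
    (hnum : n * (T.card ^ 2 * E) + K.O.card / (T.card * a) ≤ a / 8 * K.O.card) :
    ((K.Tbad adj (a / 4 * K.O.card) T).card : ℝ) ≤
      Real.exp (-((a / 8 * K.O.card) ^ 2 /
        (2 * (Fintype.card Q * ((n * Fintype.card R : ℕ) : ℝ) ^ 2)))) * Fintype.card (Q → R) := by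
  classical
  refine mcd_upper (fun ρ => ((K.badY adj T ρ).card : ℝ))
    (fun _ => ((n * Fintype.card R : ℕ) : ℝ)) (fun _ => Nat.cast_nonneg _) ?_ _ _ ?_ ?_ ?_ _ ?_
  · intro b ρ r
    exact K.lip_local K.O (fun ρ y => ∀ v ∈ T, ρ ∉ K.av y (Nb adj v))
      (fun ρ ρ' y h hρ v hv hav => hρ v hv (K.av_dep y _ (fun b hb => (h b hb).symm) hav)) b ρ r
  · positivity
  · have h1 : 0 < n * Fintype.card R := Nat.mul_pos hn Fintype.card_pos
    have h2 : (0 : ℝ) < ((n * Fintype.card R : ℕ) : ℝ) := by exact_mod_cast h1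
    obtain ⟨v, _⟩ := card_pos.mp hT
    have h3 : (0 : ℝ) < Fintype.card Q := by exact_mod_cast Fintype.card_pos_iff.mpr ⟨v⟩
    positivity
  · rw [sum_const, card_univ, nsmul_eq_mul]
  · intro ρ hρ
    have h1 := K.avg_bad adj θ a hθ0 hθ1 hrep ha ha0 T hT E hE hE0
    have h2 := (mem_filter.mp hρ).2
    change _ ≤ ((K.badY adj T ρ).card : ℝ)
    linarith

end BC

end Pool.Agent.H16.Cube
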